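import Pool.Agent.H936.V.Fin

/-!
# Algebraic numbers over finitely generated fields have a bounded degree
-/

set_option autoImplicit false
set_option linter.unusedSectionVars false
set_option linter.unusedVariables false

open Matrix Module

namespace Pool.Agent.H936.V

theorem Ag.mono {e e' : ℕ} (h : e ≤ e') {ι : Type} {b : ι → ℂ} {y : ℂ} (hy : Ag e b y) : Ag e' b y := by
  obtain ⟨P, h1, h2⟩ := hy
  exact ⟨P, h1.trans h, h2⟩

theorem ag_of_alg {ι : Type} {b : ι → ℂ} {y : ℂ}
    (h : IsAlgebraic (IntermediateField.adjoin ℚ (Set.range b)) y) : ∃ e, Ag e b y := by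
  classical
  rw [IntermediateField.isAlgebraic_adjoin_iff] at h
  obtain ⟨p, hp0, hp⟩ := h
  have h1 : ∀ i, ∃ q : MvPolynomial ι ℚ, MvPolynomial.aeval b q = (p.coeff i : ℂ) := by
    intro i
    obtain ⟨c, hc⟩ := p.coeff i
    have h2 : c ∈ (MvPolynomial.aeval (R := ℚ) b).range := by
      rw [← Algebra.adjoin_range_eq_range_aeval]
      exact hc
    exact h2
  choose q hq using h1
  set P : MvPolynomial (Option ι) ℚ := ∑ i ∈ Finset.range (p.natDegree + 1),
    MvPolynomial.rename some (q i) * MvPolynomial.X none ^ i with hP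
  have hev : ∀ x : ℂ, MvPolynomial.aeval (fun o : Option ι => o.elim x b) P = Polynomial.aeval x p := by
    intro x
    rw [hP, map_sum, Polynomial.aeval_eq_sum_range]
    refine Finset.sum_congr rfl fun i _ => ?_
    rw [map_mul, map_pow, MvPolynomial.aeval_X, MvPolynomial.aeval_rename]
    have h2 : ((fun o : Option ι => o.elim x b) ∘ some) = b := rfl
    rw [h2, hq]
    rfl
  refine ⟨P.totalDegree, P, le_rfl, ?_, ?_⟩
  · rw [hev, hp]
  · by_contra hcon
    push Not at hcon
    apply hp0
    have h2 : p.map (algebraMap (Algebra.adjoin ℚ (Set.range b)) ℂ) = 0 := by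
      refine Polynomial.funext fun x => ?_
      rw [Polynomial.eval_zero, Polynomial.eval_map, ← Polynomial.aeval_def, ← hev]
      exact hcon x
    exact (Polynomial.map_eq_zero_iff (f := algebraMap (Algebra.adjoin ℚ (Set.range b)) ℂ) (by
      intro x y hxy
      exact Subtype.ext hxy)).1 h2

/-- a generator -/
theorem ag_gen {e : ℕ} (he : 1 ≤ e) {ι : Type} (b : ι → ℂ) (i : ι) : Ag e b (b i) := by
  refine ⟨MvPolynomial.X none - MvPolynomial.X (some i), ?_, ?_, b i + 1, ?_⟩
  · refine (MvPolynomial.totalDegree_sub _ _).trans ?_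
    rw [MvPolynomial.totalDegree_X, MvPolynomial.totalDegree_X, max_self]
    exact he
  · rw [map_sub, MvPolynomial.aeval_X, MvPolynomial.aeval_X]
    exact sub_self _
  · rw [map_sub, MvPolynomial.aeval_X, MvPolynomial.aeval_X]
    show b i + 1 - b i ≠ 0
    rw [add_sub_cancel_left]
    exact one_ne_zero

theorem ag_zero {e : ℕ} (he : 1 ≤ e) {ι : Type} (b : ι → ℂ) : Ag e b 0 := by
  have h := (ag_rat 0 b).mono he
  rwa [Rat.cast_zero] at h

end Pool.Agent.H936.V
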