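import Pool.Agent.H936.G.Core

/-!
# The algebraic part of the core theorems, several torsors with different additional periods
-/

set_option autoImplicit false
set_option linter.unusedSectionVars false
set_option linter.unusedVariables false

open Matrix Module

namespace Pool.Agent.H936.V

open Pool.Agent.Helper880_LF
open Pool.Agent.Helper880_LF.NB (rank_le)
open Pool.Agent.Helper880_R3 (Ix ib ib_apply ib_inj ib_mul Tot)
open Pool.Agent.H936.SL
open Pool.Agent.H936.G (Dr Nm nrmS mem_nrmS nrmS_br nrmS_dim thmE)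

variable {F : Type} [Field F] {n r₀ N m : ℕ} {J : Matrix (Fin n) (Fin n) F} {𝒟 : Type} [AddCommGroup 𝒟] [Module F 𝒟]

/-- the same derivations with other additional periods -/
def wF (D : Dr J r₀ N 𝒟) (F₀ : 𝒟 →ₗ[F] Matrix (Fin r₀) (Fin r₀) F) : Dr J r₀ N 𝒟 :=
  { D with F₀ := F₀ }

/-- **The second core theorem**: all bad torsors have a common point. -/
theorem core2 [CharZero F] [IsAlgClosed F] (hJ : Jᵀ = -J) (hdet : IsUnit J.det) (hn : 3 ≤ n) (D : Dr J r₀ N 𝒟)
    {V : Type} [AddCommGroup V] [Module F V] [FiniteDimensional F V] (Φ : 𝒟 →ₗ[F] V)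
    (hV : finrank F V < finrank F (spS J) + (n - 1)) {ι : Type} (x₀ : ι) (F₀ : ι → 𝒟 →ₗ[F] Matrix (Fin r₀) (Fin r₀) F)
    (hΦ : ∀ x d, Φ d = 0 → ∃ z : F, F₀ x d = z • 1 ∧ D.Fc d = z • 1)
    {e : ι → Fin m → Fin N} {L : ι → Submodule F (Matrix (Ix r₀ n m) (Ix r₀ n m) F)}
    (hL : ∀ x, Nm (wF D (F₀ x)) (e x) (L x)) (hbad : ∀ x, ¬ ∀ j, ∀ Y ∈ spS J, ib (r₀ := r₀) j Y ∈ L x) :
    ∃ p, ∀ x, ∃ j, e x j = p := by
  push Not at hbad
  choose b Yb hYb hYb' using hbad
  -- the last step for derivations in the kernel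
  have hlast : ∀ x d, Pj J (L x) (b x) = spS J → Φ d = 0 →
      (∀ i, i ≠ b x → D.X (e x i) d = 0) → D.X (e x (b x)) d = 0 := by
    intro x d h1 h2 h3
    by_contra h4
    obtain ⟨z, h5, h6⟩ := hΦ x d h2
    exact hYb' x ((hL x).last hJ hdet h1 h5 h6 h4 h3 _ (hYb x))
  by_cases hI : ∃ x j, Pj J (L x) j ≠ spS J
  · obtain ⟨y, j, hj⟩ := hI
    refine ⟨e y j, fun x => ?_⟩
    by_contra hx
    push Not at hx
    set i := e y j with hi
    set i' := e x (b x) with hi'
    have hii : i' ≠ i := hx _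
    -- the two projections
    have hfull : Pj J (L x) (b x) = spS J := by
      have hdec : ∀ X ∈ spS J, ∃ Z B, X = Z + B ∧ Z ∈ spS J ∧ B ∈ spS J ∧ (∀ Y ∈ Pj J (L y) j, Z * Y - Y * Z ∈ Pj J (L y) j) ∧
          ∀ Y ∈ Pj J (L x) (b x), B * Y - Y * B ∈ Pj J (L x) (b x) := by
        intro X hX
        obtain ⟨d, h1, h2⟩ := D.surj i X hX
        obtain ⟨c, hc⟩ := D.gs d
        refine ⟨X + (D.Fc d + c • (1 : Mn n F)), -(D.Fc d + c • (1 : Mn n F)), by abel, (spS J).add_mem hX hc,
          (spS J).neg_mem hc, ?_, fun Y hY => ?_⟩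
        · have h3 := (hL y).pj hJ hc j
          have h4 : (wF D (F₀ y)).X (e y j) d = X := h1
          rw [h4] at h3
          exact h3
        · have h3 := (hL x).pj hJ hc (b x) Y hY
          have h4 : (wF D (F₀ x)).X (e x (b x)) d = 0 := h2 _ hii
          rw [h4, zero_add] at h3
          have h5 := (Pj J (L x) (b x)).neg_mem h3
          have h6 : -(D.Fc d + c • (1 : Mn n F)) * Y - Y * -(D.Fc d + c • (1 : Mn n F)) =
              -((D.Fc d + c • (1 : Mn n F)) * Y - Y * (D.Fc d + c • (1 : Mn n F))) := by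
            rw [Matrix.neg_mul, Matrix.mul_neg]
            abel
          rw [h6]
          exact h5
      rcases thmE hJ hdet hn ((hL y).tn j) Pj_le ((hL x).tn (b x)) Pj_le hdec with (h1 | h1) | (h1 | h1)
      · exact absurd h1 ((hL y).ne j)
      · exact absurd h1 hj
      · exact absurd h1 ((hL x).ne (b x))
      · exact h1
    set 𝔫 := nrmS J (Pj J (L y) j) with h𝔫
    have hdim : finrank F 𝔫 + (n - 1) ≤ finrank F (spS J) := nrmS_dim hJ hdet (by omega) Pj_le ((hL y).ne j) hj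
    obtain ⟨d, h1, h2, h3⟩ := D.ker_two Φ (Ne.symm hii) (𝔫 := 𝔫) (by omega)
    obtain ⟨z, h4, h5⟩ := hΦ y d h1
    have h6 : D.X i d ∈ 𝔫 := by
      refine ⟨D.mem _ _, fun Y hY => ?_⟩
      have h7 : D.Fc d + (-z) • (1 : Mn n F) ∈ spS J := by
        rw [h5, neg_smul, add_neg_cancel]
        exact (spS J).zero_mem
      have h8 := (hL y).pj hJ h7 j Y hY
      have h9 : (wF D (F₀ y)).Fc d = z • 1 := h5
      rw [h9, neg_smul, add_neg_cancel, add_zero] at h8
      exact h8
    exact h3 ⟨h6, hlast x d hfull h1 fun l hl => h2 _ (hx l) fun h8 => hl ((hL x).inj h8)⟩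
  · push Not at hI
    refine ⟨e x₀ (b x₀), fun x => ?_⟩
    by_contra hx
    push Not at hx
    set i := e x₀ (b x₀) with hi
    set i' := e x (b x) with hi'
    have hii : i' ≠ i := hx _
    obtain ⟨d, h1, h2, h3⟩ := D.ker_two Φ (Ne.symm hii) (𝔫 := (⊥ : Submodule F (Mn n F))) (by
      rw [finrank_bot, add_zero]
      have h10 : n - 1 ≤ finrank F (spS J) := by
        by_contra hcon
        have h11 : spS J ≤ (⊥ : Submodule F (Mn n F)) := lie_full hJ hdet bot_le (by
          intro x hx y hy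
          rw [Submodule.mem_bot] at hx hy ⊢
          rw [hx, Matrix.zero_mul, Matrix.mul_zero, sub_zero]) (by rw [finrank_bot]; omega) (by omega)
        have h12 : spS J = ⊥ := le_bot_iff.1 h11
        exact (hL x₀).ne (b x₀) (le_bot_iff.1 (Pj_le.trans h12.le))
      omega)
    have h4 : D.X i' d = 0 := hlast x d (hI x (b x)) h1 fun l hl => h2 _ (hx l) fun h8 => hl ((hL x).inj h8)
    have h5 : D.X i d = 0 := by
      refine hlast x₀ d (hI x₀ (b x₀)) h1 fun l hl => ?_
      by_cases h8 : e x₀ l = i'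
      · rw [h8, h4]
      · exact h2 _ (fun h9 => hl ((hL x₀).inj h9)) h8
    exact h3 ⟨by rw [h5]; exact Submodule.zero_mem _, h4⟩

end Pool.Agent.H936.V
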