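import Pool.Agent.H936.V.Ult
import Pool.Agent.H936.G.Spc3
import Pool.Agent.H885.FewR

/-!
# Sequences of central periods
-/

set_option autoImplicit false
set_option linter.unusedSectionVars false
set_option linter.unusedVariables false

open Matrix Module Filter

namespace Pool.Agent.H936.V

open Pool.Agent.Helper880_LF (om pr spS mem_spS comm_mem)
open Pool.Agent.Helper880_LF.NB (gm gm_mul gm_add gm_sub gm_smul gm_zero gm_one gm_ev gm_eq gm_surj gm_neg gm_unit gm_apply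
  gm_transpose gm_kt kt kt_apply dm dm_mul dm_smul dm_transpose Lst mem_Lst normL rank_le kerD mem_kerD ker_alg)
open Pool.Agent.Helper880_R3 (Ix ib Tot)
open Pool.Agent.Y118.UL (mk mk_eq mk_eq_zero mk_ne_zero mk_surj rep U)
open Pool.Agent.Y118.HX (aeval_gm)
open Pool.Agent.Y119.HY (cm cm_apply cm_mul cm_one cm_transpose cm_zero cm_add cm_neg cm_pow)
open Pool.Agent.Y123.ST (fl um LL LL_def fl_um um_fl)
open Pool.Agent.TH127.PT (IsSubtorsor)
open Pool.Agent.Y102 (AbVar QBar tau toC toC_eq)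
open Pool.Agent.H936.SL (Mn GS Pj TN Lm RatGrp Pres LL_br bt bt_surj ns_bt finrank_spS_ge)
open Pool.Agent.H936.G (DD dm_addD dm_smulD ld ld_apply cjg cjg_apply Xd nrmS mem_nrmS nrmS_dim thmE cm_unit cm_unit' cm_skew'
  upS mem_upS upS_dim Spc RLie L0 L0_rlie)
open Pool.Agent.H885 (ex_rep)

variable {n N r₀ m g : ℕ}

/-- `y` satisfies an algebraic equation `P (b, y) = 0` where `P (b, Y)` is not the zero polynomial and the total degree of
`P` is at most `e` -/
def Ag (e : ℕ) {ι : Type} (b : ι → ℂ) (y : ℂ) : Prop :=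
  ∃ P : MvPolynomial (Option ι) ℚ, P.totalDegree ≤ e ∧ MvPolynomial.aeval (fun o : Option ι => o.elim y b) P = 0 ∧
    ∃ y' : ℂ, MvPolynomial.aeval (fun o : Option ι => o.elim y' b) P ≠ 0

/-- derivations which kill the `b` kill the numbers which are algebraic over them -/
theorem der_ag {ι : Type} [Fintype ι] {e : ℕ} {b : ℕ → ι → ℂ} {y : ℕ → ℂ} (h : ∀ k, Ag e (b k) (y k))
    {δ : DD} (hδ : ∀ i, δ (mk ℂ fun k => b k i) = 0) : δ (mk ℂ y) = 0 := by
  classical
  choose P hdeg h0 y' hy' using h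
  obtain ⟨P0, hP0⟩ := ex_rep P hdeg
  set Q := MvPolynomial.map (mk ℚ) P0 with hQ
  have hev : ∀ x : ℕ → ℂ, MvPolynomial.aeval (fun o : Option ι => o.elim (mk ℂ x) fun i => mk ℂ fun k => b k i) Q =
      mk ℂ fun k => MvPolynomial.aeval (fun o : Option ι => o.elim (x k) (b k)) (P k) := by
    intro x
    have h1 := aeval_gm P0 fun (o : Option ι) k => o.elim (x k) (b k)
    have h2 : (fun o : Option ι => o.elim (mk ℂ x) fun i => mk ℂ fun k => b k i) =
        fun o => mk ℂ fun k => o.elim (x k) (b k) := by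
      funext o
      rcases o with _ | i <;> rfl
    rw [h2]
    refine h1.trans ?_
    congr 1
    funext k
    rw [hP0]
  let ψ : U ℚ →+* kerD δ := (algebraMap (U ℚ) (U ℂ)).codRestrict (kerD δ) fun q => δ.map_algebraMap q
  let p : Polynomial (kerD δ) := MvPolynomial.eval₂Hom (Polynomial.C.comp ψ)
    (fun o : Option ι => o.elim Polynomial.X fun i => Polynomial.C ⟨mk ℂ fun k => b k i, hδ i⟩) Q
  have hp : ∀ x : U ℂ, Polynomial.aeval x p =
      MvPolynomial.aeval (fun o : Option ι => o.elim x fun i => mk ℂ fun k => b k i) Q := by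
    intro x
    have h1 : ((Polynomial.aeval x).toRingHom.comp (MvPolynomial.eval₂Hom (Polynomial.C.comp ψ)
        (fun o : Option ι => o.elim Polynomial.X fun i => Polynomial.C (⟨mk ℂ fun k => b k i, hδ i⟩ : kerD δ)))) =
        (MvPolynomial.aeval (fun o : Option ι => o.elim x fun i => mk ℂ fun k => b k i)).toRingHom := by
      refine MvPolynomial.ringHom_ext (fun q => ?_) fun o => ?_
      · rw [RingHom.comp_apply, MvPolynomial.coe_eval₂Hom, MvPolynomial.eval₂_C]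
        show Polynomial.aeval x (Polynomial.C (ψ q)) = MvPolynomial.aeval _ (MvPolynomial.C q)
        rw [Polynomial.aeval_C, MvPolynomial.aeval_C]
        rfl
      · rw [RingHom.comp_apply, MvPolynomial.coe_eval₂Hom, MvPolynomial.eval₂_X]
        show Polynomial.aeval x _ = MvPolynomial.aeval _ (MvPolynomial.X o)
        rw [MvPolynomial.aeval_X]
        rcases o with _ | i
        · exact Polynomial.aeval_X _
        · exact Polynomial.aeval_C _ _
    exact RingHom.congr_fun h1 Q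
  apply ker_alg
  refine ⟨p, ?_, ?_⟩
  · intro hp0
    have h1 := hp (mk ℂ y')
    rw [hp0, map_zero, hev] at h1
    obtain ⟨k, hk⟩ := (mk_eq_zero.1 h1.symm).exists
    exact hy' k hk
  · rw [hp, hev, mk_eq_zero]
    exact Filter.Eventually.of_forall h0

/-- a number in a field of degree at most `D` -/
def Bd (D : ℕ) (x : ℂ) : Prop := ∃ K : Subfield ℂ, FiniteDimensional ℚ K ∧ finrank ℚ K ≤ D ∧ x ∈ K

theorem Bd.ag {D : ℕ} {x : ℂ} (h : Bd D x) {ι : Type} (b : ι → ℂ) : Ag D b x := by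
  classical
  obtain ⟨K, hK, hD, hx⟩ := h
  set p := minpoly ℚ (⟨x, hx⟩ : K) with hp
  have hp0 : p ≠ 0 := minpoly.ne_zero (Algebra.IsIntegral.isIntegral _)
  have hdeg : p.natDegree ≤ D := (minpoly.natDegree_le _).trans hD
  have hev : ∀ y : ℂ, MvPolynomial.aeval (fun o : Option ι => o.elim y b)
      (Polynomial.aeval (MvPolynomial.X none : MvPolynomial (Option ι) ℚ) p) = Polynomial.aeval y p := by
    intro y
    rw [← Polynomial.aeval_algHom_apply, MvPolynomial.aeval_X]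
    rfl
  refine ⟨Polynomial.aeval (MvPolynomial.X none) p, ?_, ?_, ?_⟩
  · rw [Polynomial.aeval_eq_sum_range]
    refine MvPolynomial.totalDegree_finsetSum_le fun i hi => ?_
    refine (MvPolynomial.totalDegree_smul_le _ _).trans ?_
    refine (MvPolynomial.totalDegree_pow _ _).trans ?_
    rw [MvPolynomial.totalDegree_X, mul_one]
    have := Finset.mem_range.1 hi
    omega
  · rw [hev]
    have h1 : Polynomial.aeval (⟨x, hx⟩ : K) p = 0 := minpoly.aeval _ _
    have h2 := congrArg (algebraMap K ℂ) h1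
    rw [map_zero, ← Polynomial.aeval_algebraMap_apply] at h2
    exact h2
  · by_contra hcon
    push Not at hcon
    apply hp0
    have h2 : p.map (algebraMap ℚ ℂ) = 0 := by
      refine Polynomial.funext fun y => ?_
      rw [Polynomial.eval_zero, Polynomial.eval_map, ← Polynomial.aeval_def, ← hev]
      exact hcon y
    exact (Polynomial.map_eq_zero_iff (algebraMap ℚ ℂ).injective).1 h2

theorem der_bd {D : ℕ} {y : ℕ → ℂ} (h : ∀ k, Bd D (y k)) (δ : DD) : δ (mk ℂ y) = 0 :=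
  der_ag (ι := Fin 0) (b := fun _ => Fin.elim0) (fun k => (h k).ag _) fun i => i.elim0

theorem dm_bd {D : ℕ} {M : ℕ → Matrix (Fin n) (Fin n) ℂ} (h : ∀ k i j, Bd D (M k i j)) (δ : DD) : dm δ (gm M) = 0 := by
  ext i j
  exact der_bd (fun k => h k i j) δ

theorem ag_rat (x : ℚ) {ι : Type} (b : ι → ℂ) : Ag 1 b (x : ℂ) := by
  refine ⟨MvPolynomial.X none - MvPolynomial.C x, ?_, ?_, x + 1, ?_⟩
  · refine (MvPolynomial.totalDegree_sub _ _).trans ?_
    rw [MvPolynomial.totalDegree_X, MvPolynomial.totalDegree_C]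
    omega
  · rw [map_sub, MvPolynomial.aeval_X, MvPolynomial.aeval_C]
    exact sub_self _
  · rw [map_sub, MvPolynomial.aeval_X, MvPolynomial.aeval_C]
    show (x : ℂ) + 1 - (x : ℂ) ≠ 0
    rw [add_sub_cancel_left]
    exact one_ne_zero

theorem dm_cmS (H : ℕ → Matrix (Fin n) (Fin n) ℚ) (δ : DD) : dm δ (gm fun k => cm (H k)) = 0 := by
  ext i j
  refine der_ag (e := 1) (ι := Fin 0) (b := fun _ => Fin.elim0) (y := fun k => cm (H k) i j) (fun k => ?_) fun i => i.elim0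
  rw [cm_apply]
  exact ag_rat _ _

/-- a sequence of central fibres which are polarised over fields of bounded degree -/
structure Cen (D : ℕ) (H : ℕ → Matrix (Fin n) (Fin n) ℚ) (C : ℕ → Mn n ℂ) (θ : ℂ) : Prop where
  skew : ∀ k, (H k)ᵀ = -H k
  hd : ∀ k, IsUnit (H k).det
  cd : ∀ k, IsUnit (C k).det
  ne : θ ≠ 0
  leg : ∀ k, ∃ Q : Mn n ℂ, (∀ i j, Bd D (Q i j)) ∧ C k * Q * (C k)ᵀ = θ • cm (H k)

/-- the forms on the homology -/
noncomputable abbrev JJ (H : ℕ → Matrix (Fin n) (Fin n) ℚ) : ℕ → Mn n ℂ := fun k => cm (H k)⁻¹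

section cen
variable {D : ℕ} {H : ℕ → Matrix (Fin n) (Fin n) ℚ} {C : ℕ → Mn n ℂ} {θ : ℂ}

theorem JJ_skew (h : ∀ k, (H k)ᵀ = -H k) (k : ℕ) : (JJ H k)ᵀ = -JJ H k := cm_skew' (h k)

theorem JJ_det (h : ∀ k, IsUnit (H k).det) (k : ℕ) : (JJ H k).det ≠ 0 := (cm_unit' (h k)).ne_zero

/-- **the similitudes** -/
theorem Cen.gs (h : Cen D H C θ) (δ : DD) : GS (gm (JJ H)) (ld C δ) := by
  choose Q hQ hleg using h.leg
  have hCu : IsUnit (gm C).det := gm_unit fun k => (h.cd k).ne_zero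
  set H' := gm fun k => cm (H k) with hH'
  have hHu : IsUnit H'.det := gm_unit fun k => (cm_unit (h.hd k)).ne_zero
  have hθ' : kt θ ≠ 0 := (map_ne_zero kt).2 h.ne
  have hJ : gm (JJ H) = H'⁻¹ := by
    symm
    refine Matrix.inv_eq_right_inv ?_
    rw [← gm_mul, ← gm_one]
    congr 1
    funext k
    show cm (H k) * cm (H k)⁻¹ = 1
    rw [← cm_mul, Matrix.mul_nonsing_inv _ (h.hd k), cm_one]
  have h0 : gm C * gm Q * (gm C)ᵀ = kt θ • H' := by
    rw [← gm_transpose, ← gm_mul, ← gm_mul]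
    have : kt θ • H' = gm fun k => θ • cm (H k) := by rw [gm_smul]; rfl
    rw [this]
    congr 1
    funext k
    exact hleg k
  have h1 := congrArg (dm δ) h0
  rw [dm_mul, dm_mul, dm_bd hQ, Matrix.mul_zero, add_zero, dm_transpose, dm_smul, dm_cmS, smul_zero, add_zero] at h1
  have hCC : (gm C)⁻¹ * gm C = 1 := Matrix.nonsing_inv_mul _ hCu
  set F := ld C δ with hF
  have h2 : dm δ (gm C) = F * gm C := by
    rw [hF, ld_apply, Matrix.mul_assoc, hCC, Matrix.mul_one]
  have h3 : F * H' + H' * Fᵀ = (δ (kt θ) / kt θ) • H' := by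
    have e1 : kt θ • (F * H' + H' * Fᵀ) = δ (kt θ) • H' := by
      rw [smul_add, ← Matrix.mul_smul, ← Matrix.smul_mul, ← h0, ← h1, h2, transpose_mul]
      simp only [Matrix.mul_assoc]
    rw [div_eq_inv_mul, mul_smul, ← e1, smul_smul, inv_mul_cancel₀ hθ', one_smul]
  have hHH : H' * H'⁻¹ = 1 := Matrix.mul_nonsing_inv _ hHu
  have hHH' : H'⁻¹ * H' = 1 := Matrix.nonsing_inv_mul _ hHu
  set c := δ (kt θ) / kt θ with hc
  refine ⟨-(c / 2), ?_⟩
  rw [hJ, mem_spS]
  have h4 : Fᵀ * H'⁻¹ + H'⁻¹ * F = c • H'⁻¹ := by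
    calc Fᵀ * H'⁻¹ + H'⁻¹ * F = H'⁻¹ * (F * H' + H' * Fᵀ) * H'⁻¹ := by
          rw [Matrix.mul_add, Matrix.add_mul]
          have e1 : H'⁻¹ * (F * H') * H'⁻¹ = H'⁻¹ * F := by
            calc H'⁻¹ * (F * H') * H'⁻¹ = H'⁻¹ * F * (H' * H'⁻¹) := by simp only [Matrix.mul_assoc]
              _ = _ := by rw [hHH, Matrix.mul_one]
          have e2 : H'⁻¹ * (H' * Fᵀ) * H'⁻¹ = Fᵀ * H'⁻¹ := by
            rw [← Matrix.mul_assoc, hHH', Matrix.one_mul]
          rw [e1, e2, add_comm]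
      _ = c • H'⁻¹ := by
        rw [h3, Matrix.mul_smul, hHH', Matrix.smul_mul, Matrix.one_mul]
  have h5 : (F + -(c / 2) • (1 : Mn n (U ℂ)))ᵀ * H'⁻¹ + H'⁻¹ * (F + -(c / 2) • (1 : Mn n (U ℂ))) =
      (Fᵀ * H'⁻¹ + H'⁻¹ * F) - c • H'⁻¹ := by
    rw [transpose_add, transpose_smul, transpose_one, Matrix.add_mul, Matrix.mul_add, Matrix.smul_mul, Matrix.mul_smul,
      Matrix.one_mul, Matrix.mul_one]
    module
  rw [h5, h4, sub_self]

/-- derivations which kill the entries of the period matrices kill the period of the Tate motive -/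
theorem Cen.tau (h : Cen D H C θ) (hn : 0 < n) {δ : DD} (hδ : dm δ (gm C) = 0) : δ (kt θ) = 0 := by
  choose Q hQ hleg using h.leg
  set H' := gm fun k => cm (H k) with hH'
  have hHu : IsUnit H'.det := gm_unit fun k => (cm_unit (h.hd k)).ne_zero
  have h0 : gm C * gm Q * (gm C)ᵀ = kt θ • H' := by
    rw [← gm_transpose, ← gm_mul, ← gm_mul]
    have : kt θ • H' = gm fun k => θ • cm (H k) := by rw [gm_smul]; rfl
    rw [this]
    congr 1
    funext k
    exact hleg k
  have h1 := congrArg (dm δ) h0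
  rw [dm_mul, dm_mul, hδ, dm_bd hQ, Matrix.mul_zero, Matrix.zero_mul, add_zero, Matrix.zero_mul, zero_add, dm_transpose,
    hδ, transpose_zero, Matrix.mul_zero, dm_smul, dm_cmS, smul_zero, add_zero] at h1
  have h2 : H' ≠ 0 := by
    intro h3
    have h4 := hHu.ne_zero
    rw [h3] at h4
    refine h4 ?_
    have : Nonempty (Fin n) := ⟨⟨0, hn⟩⟩
    exact Matrix.det_zero
  exact (smul_eq_zero.1 h1.symm).resolve_right h2

/-- **the derivations** -/
theorem Cen.sq (h : Cen D H C θ) {z : ℕ → Fin N → Mn n ℂ} (hz : ∀ k j, (z k j).det ≠ 0)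
    (hder : ∀ i, ∀ G : ℕ → Mn n ℂ, (∀ k, G k ∈ spS (JJ H k)) → ∃ δ : DD,
      dm δ (gm fun k => z k i) = gm (fun k => (C k)⁻¹ * G k * C k) * (gm fun k => z k i) ∧
      ∀ j, j ≠ i → dm δ (gm fun k => z k j) = 0) : Sq (JJ H) C z where
  skew := JJ_skew h.skew
  det := JJ_det h.hd
  gs := h.gs
  cu k := (h.cd k).ne_zero
  zu := hz
  surj := by
    classical
    intro i Y hY
    obtain ⟨F, rfl⟩ := gm_surj Y
    have hF := gm_spS.1 hY
    set G : ℕ → Mn n ℂ := fun k => if F k ∈ spS (JJ H k) then F k else 0 with hG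
    have hGF : gm G = gm F := by
      rw [gm_ev]
      filter_upwards [hF] with k hk
      exact if_pos hk
    have hGs : ∀ k, G k ∈ spS (JJ H k) := by
      intro k
      rw [hG]
      simp only
      split_ifs with hk
      · exact hk
      · exact Submodule.zero_mem _
    obtain ⟨δ, h1, h2⟩ := hder i G hGs
    have hzu : ∀ j, IsUnit (gm fun k => z k j).det := fun j => gm_unit fun k => hz k j
    have hCu : IsUnit (gm C).det := gm_unit fun k => (h.cd k).ne_zero
    have hinv : gm (fun k => (C k)⁻¹) = (gm C)⁻¹ := by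
      symm
      refine Matrix.inv_eq_right_inv ?_
      rw [← gm_mul, ← gm_one]
      congr 1
      funext k
      exact Matrix.mul_nonsing_inv _ (h.cd k)
    refine ⟨δ, ?_, fun j hj => ?_⟩
    · show gm C * (dm δ (gm fun k => z k i) * (gm fun k => z k i)⁻¹) * (gm C)⁻¹ = gm F
      rw [h1, Matrix.mul_assoc _ (gm fun k => z k i), Matrix.mul_nonsing_inv _ (hzu i), Matrix.mul_one]
      have h3 : gm (fun k => (C k)⁻¹ * G k * C k) = (gm C)⁻¹ * gm F * gm C := by
        rw [gm_mul, gm_mul, hinv, hGF]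
      rw [h3]
      calc gm C * ((gm C)⁻¹ * gm F * gm C) * (gm C)⁻¹ = (gm C * (gm C)⁻¹) * gm F * (gm C * (gm C)⁻¹) := by
            simp only [Matrix.mul_assoc]
        _ = _ := by rw [Matrix.mul_nonsing_inv _ hCu, Matrix.one_mul, Matrix.mul_one]
    · show gm C * (dm δ (gm fun k => z k j) * (gm fun k => z k j)⁻¹) * (gm C)⁻¹ = 0
      rw [h2 j hj, Matrix.zero_mul, Matrix.mul_zero, Matrix.zero_mul]

/-! ### counting -/

/-- the values at finitely many sequences of constants -/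
noncomputable def evs {s : ℕ} (b : ℕ → Fin s → ℂ) : DD →ₗ[U ℂ] (Fin s → U ℂ) where
  toFun δ i := δ (mk ℂ fun k => b k i)
  map_add' _ _ := rfl
  map_smul' _ _ := rfl

theorem ld_scale {B : Type} [Fintype B] [DecidableEq B] {X : ℕ → Matrix B B ℂ} (hX : ∀ k, (X k).det ≠ 0) {κ : ℕ → ℂ}
    (hκ : ∀ k, κ k ≠ 0) {δ : DD} (h : ∀ i j, δ (mk ℂ fun k => κ k * X k i j) = 0) :
    ld X δ = (-(δ (mk ℂ κ) / mk ℂ κ)) • 1 := by
  have hκ' : mk ℂ κ ≠ 0 := mk_ne_zero.2 (Filter.Eventually.of_forall hκ)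
  have h3 : dm δ (gm X) = (-(δ (mk ℂ κ) / mk ℂ κ)) • gm X := by
    ext i j
    have h4 := h i j
    have h5 : (mk ℂ fun k => κ k * X k i j) = mk ℂ κ * mk ℂ fun k => X k i j := map_mul (mk ℂ) _ _
    rw [h5, Derivation.leibniz, smul_eq_mul, smul_eq_mul] at h4
    show δ (mk ℂ fun k => X k i j) = (-(δ (mk ℂ κ) / mk ℂ κ)) * mk ℂ fun k => X k i j
    field_simp
    linear_combination h4
  rw [ld_apply, h3, Matrix.smul_mul, Matrix.mul_nonsing_inv _ (gm_unit hX)]

theorem fewG_a {s b e : ℕ} {ι : Type} {C₀ : ι → ℕ → Matrix (Fin r₀) (Fin r₀) ℂ} (hC₀ : ∀ x k, (C₀ x k).det ≠ 0)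
    (hC : ∀ k, (C k).det ≠ 0) (β : ℕ → Fin s → ℂ)
    (h : ∀ x k, ∃ κ : ℂ, κ ≠ 0 ∧ (∀ i j, Ag e (β k) (κ * C₀ x k i j)) ∧ ∀ i j, Ag e (β k) (κ * C k i j)) (hs : s < b) :
    FewG b C C₀ := by
  choose κ hκ h1 h2 using h
  refine ⟨(Fin s → U ℂ), inferInstance, inferInstance, inferInstance, evs β, ?_, fun x δ hδ => ?_⟩
  · rw [Module.finrank_fin_fun]
    exact hs
  have hb : ∀ i, δ (mk ℂ fun k => β k i) = 0 := fun i => congrFun hδ i
  exact ⟨_, ld_scale (hC₀ x) (hκ x) fun i j => der_ag (fun k => h1 x k i j) hb,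
    ld_scale hC (hκ x) fun i j => der_ag (fun k => h2 x k i j) hb⟩

/-- the numbers which generate the field of the additional periods: `2 π i`, the central periods and some other numbers -/
def gens (θ : ℂ) {s : ℕ} (C : Mn n ℂ) (β : Fin s → ℂ) : Option ((Fin n × Fin n) ⊕ Fin s) → ℂ :=
  fun o => o.elim θ (Sum.elim (fun p => C p.1 p.2) β)

theorem fewG_b (h : Cen D H C θ) (hn : 0 < n) {s b e : ℕ} {ι : Type} {C₀ : ι → ℕ → Matrix (Fin r₀) (Fin r₀) ℂ}
    (𝔊 : Submodule (U ℂ) (Mn n (U ℂ))) (hG : ∀ δ : DD, ld C δ ∈ 𝔊) (β : ℕ → Fin s → ℂ)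
    (hl : ∀ x k i j, Ag e (gens θ (C k) (β k)) (C₀ x k i j)) (hs : finrank (U ℂ) 𝔊 + s < b) : FewG b C C₀ := by
  let Φ1 : DD →ₗ[U ℂ] 𝔊 := (ld C).codRestrict 𝔊 hG
  refine ⟨𝔊 × (Fin s → U ℂ), inferInstance, inferInstance, inferInstance, Φ1.prod (evs β), ?_, fun x δ hδ => ?_⟩
  · rw [Module.finrank_prod, Module.finrank_fin_fun]
    exact hs
  · have h1 : Φ1 δ = 0 := congrArg Prod.fst hδ
    have h2 : evs β δ = 0 := congrArg Prod.snd hδ
    have hCu : IsUnit (gm C).det := gm_unit fun k => (h.cd k).ne_zero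
    have h4 : ld C δ = 0 := congrArg Subtype.val h1
    have h3 : dm δ (gm C) = 0 := by
      have h5 : dm δ (gm C) * (gm C)⁻¹ = 0 := h4
      calc dm δ (gm C) = dm δ (gm C) * (gm C)⁻¹ * gm C := by
            rw [Matrix.mul_assoc, Matrix.nonsing_inv_mul _ hCu, Matrix.mul_one]
        _ = 0 := by rw [h5, Matrix.zero_mul]
    refine ⟨0, ?_, by rw [h4, zero_smul]⟩
    have h5 : dm δ (gm (C₀ x)) = 0 := by
      ext i j
      refine der_ag (fun k => hl x k i j) fun o => ?_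
      rcases o with _ | p | i
      · exact h.tau hn h3
      · exact congrFun (congrFun h3 p.1) p.2
      · exact congrFun h2 i
    rw [ld_apply, h5, Matrix.zero_mul, zero_smul]

end cen

end Pool.Agent.H936.V
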