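import Pool.Agent.H936.V.Pt
import Pool.Agent.H885.BaseU

/-!
# The uniform theorems for families over bases of any dimension
-/

set_option autoImplicit false
set_option linter.unusedSectionVars false
set_option linter.unusedVariables false

open Matrix Module Filter PowerSeries

namespace Pool.Agent.H936.V

open Pool.Agent.Y113 (ps)
open Pool.Agent.Y118.HV (Hv hh)
open Pool.Agent.Y120.GH (cx cx_mem Cw)
open Pool.Agent.Helper880_LF (spS)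
open Pool.Agent.Helper880_R3 (Ix ib Tot)
open Pool.Agent.Y119.HY (cm)
open Pool.Agent.TH127.PT (IsSubtorsor)
open Pool.Agent.Y102 (AbVar)
open Pool.Agent.H936.SL (Mn Lm RatGrp Pres)
open Pool.Agent.H936.G (Spc)
open Pool.Agent.H885 (Sys InfT part GBaseU line lineM toMv line_size pow_absorb base_sysU)

variable {n N r₀ L g m : ℕ}

/-- **the points on lines**: uniform systems -/
theorem pt_of (L N m n q : ℕ) : ∃ q' c : ℕ, ∀ (E : ℕ) (B : ℝ) (h w b₀ : ℕ), 1 ≤ B →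
    (2 * B * ((h : ℝ) + w + 2)) ^ (c * E) ≤ (b₀ : ℝ) → ∀ (J C : Mn n ℂ) (b : Fin L → Fin N → ℕ),
    (∀ l j, b₀ ≤ b l j ∧ b l j ≤ b₀ + w) →
    (∀ l j l' j', ¬ (l = l' ∧ b l j = b l' j') → 2 ^ (m + 1) * B * ((h : ℝ) + 2) < |(b l j : ℝ) - b l' j'|) →
    ∀ (T : Fin L → Fin N → MvPolynomial (Fin m) ℤ) (A : Fin L → Fin N → Fin m → Fin n → Fin n → MvPolynomial (Fin m) ℤ)
      (Z W : Fin L → Fin N → Matrix (Fin n) (Fin n) (MvPowerSeries (Fin m) ℚ)) (a : Fin L → Fin N → Fin m → ℤ),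
    (∀ l j, GBaseU (N := 1) q B (T l j) (fun _ => A l j) (fun _ => Z l j) (fun _ => W l j)) →
    (∀ l j i, |a l j i| ≤ h) → (∀ l j, line (a l j) (toMv (T l j)) ≠ 0) →
    (∀ l, ∀ X : Fin N → Mn n ℂ, (∀ j, X j ∈ spS J) → ∀ β,
      InfT (part (b l) (fun j => lineM (a l j) (Z l j)) β) (fun j => if b l j = β then C⁻¹ * X j * C else 0)) →
    ∃ p : Pt L n N, p.OK q' E J C ∧ (∀ l j, p.Z l j = lineM (a l j) (Z l j)) ∧ ∀ l j, p.b l j = b l j := by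
  classical
  obtain ⟨q', E₀, hbase⟩ := base_sysU m n 1 q
  obtain ⟨e₁, he₁⟩ := pow_absorb (c := (2 : ℝ) * (1 + 2 ^ m)) (by
    have : (1 : ℝ) ≤ 2 ^ m := one_le_pow₀ (by norm_num)
    linarith)
  refine ⟨q', e₁ + E₀ + 1, fun E B h w b₀ hB hbig J C b hb hsep T A Z W a hF ha hTa hI => ?_⟩
  set x : ℝ := 2 * B * ((h : ℝ) + w + 2) with hx
  have hh0 : (0 : ℝ) ≤ h := by positivity
  have hw0 : (0 : ℝ) ≤ w := by positivity
  have hx1 : (h : ℝ) + w + 2 ≤ x := by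
    rw [hx]
    nlinarith
  have hx2 : 2 ≤ x := by linarith
  have hx3 : B * ((h : ℝ) + 2) ≤ x := by
    rw [hx]
    nlinarith
  have hx4 : 2 * B * ((h : ℝ) + 2) ≤ x := by
    rw [hx]
    nlinarith
  have hbig' : (2 * (2 * B * ((h : ℝ) + 2)) ^ E₀ * ((w : ℝ) + 2 ^ m * (B * ((h : ℝ) + 2)) + 2)) ^ E ≤ (b₀ : ℝ) := by
    refine le_trans ?_ hbig
    rw [pow_mul]
    refine pow_le_pow_left₀ (by positivity) ?_ E
    have h1 : (2 * B * ((h : ℝ) + 2)) ^ E₀ ≤ x ^ E₀ := pow_le_pow_left₀ (by positivity) hx4 _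
    have h2 : (w : ℝ) + 2 ^ m * (B * ((h : ℝ) + 2)) + 2 ≤ (1 + 2 ^ m) * x := by
      have h3 : (2 : ℝ) ^ m * (B * ((h : ℝ) + 2)) ≤ 2 ^ m * x := mul_le_mul_of_nonneg_left hx3 (by positivity)
      linarith
    calc 2 * (2 * B * ((h : ℝ) + 2)) ^ E₀ * ((w : ℝ) + 2 ^ m * (B * ((h : ℝ) + 2)) + 2) ≤
        2 * x ^ E₀ * ((1 + 2 ^ m) * x) := by
          refine mul_le_mul (by linarith) h2 (by positivity) (by positivity)
      _ = (2 * (1 + 2 ^ m)) * (x ^ E₀ * x) := by ring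
      _ ≤ x ^ e₁ * (x ^ E₀ * x) := mul_le_mul_of_nonneg_right (he₁ x hx2) (by positivity)
      _ = x ^ (e₁ + E₀ + 1) := by ring
  have h1 : ∀ l j, ∃ (T' : Polynomial ℤ) (B' : Fin n → Fin n → Polynomial ℤ), T' ≠ 0 ∧
      Sys (N := 1) q' ((2 * B * ((h : ℝ) + 2)) ^ E₀) T' (fun _ => B')
        (fun _ => lineM (a l j) (Z l j)) (fun _ => lineM (a l j) (W l j)) := by
    intro l j
    obtain ⟨T', B', hT', hS'⟩ := hbase B (T l j) (fun _ => A l j) (fun _ => Z l j) (fun _ => W l j) (hF l j) h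
      (fun _ => a l j) (fun _ => ha l j) (fun _ => hTa l j)
    have h2 : B' = fun _ => B' 0 := funext fun i => by rw [Subsingleton.elim i 0]
    rw [h2] at hS'
    exact ⟨T', B' 0, hT', hS'⟩
  choose T' B' hT' hS' using h1
  refine ⟨⟨(2 * B * ((h : ℝ) + 2)) ^ E₀, T', B', fun l j => lineM (a l j) (Z l j), fun l j => lineM (a l j) (W l j),
    2 ^ m * (B * ((h : ℝ) + 2)), w, b₀, b⟩, ⟨one_le_pow₀ (by nlinarith), hS', hT', by positivity, fun l j a' b' => ?_, hb,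
    fun l j l' j' hne => ?_, hbig', hI⟩, fun l j => rfl, fun l j => rfl⟩
  · exact cx_mem (by positivity) (line_size hB ((hF l j).size 0 a' b') (ha l j))
  · refine lt_of_eq_of_lt ?_ (hsep l j l' j' hne)
    show 2 * (2 ^ m * (B * ((h : ℝ) + 2))) = 2 ^ (m + 1) * B * ((h : ℝ) + 2)
    ring

/-- a tuple of fibres, with a subtorsor through the period matrix -/
structure Tup (m N g r₀ : ℕ) where
  b : Fin N → ℕ
  C₀ : Matrix (Fin r₀) (Fin r₀) ℂ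
  T : Fin N → MvPolynomial (Fin m) ℤ
  A : Fin N → Fin m → Fin (2 * g) → Fin (2 * g) → MvPolynomial (Fin m) ℤ
  Z : Fin N → Matrix (Fin (2 * g)) (Fin (2 * g)) (MvPowerSeries (Fin m) ℚ)
  W : Fin N → Matrix (Fin (2 * g)) (Fin (2 * g)) (MvPowerSeries (Fin m) ℚ)
  a : Fin N → Fin m → ℤ
  K : Subfield ℂ
  S : Set (Matrix (Ix r₀ (2 * g) N) (Ix r₀ (2 * g) N) ℂ)

/-- the distance of `b` and `c` is larger than `2^(m+1) B (h + 2)` -/
def Far (m : ℕ) (B : ℝ) (h b c : ℕ) : Prop := 2 ^ (m + 1) * B * ((h : ℝ) + 2) < |(b : ℝ) - c|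

theorem Far.symm {B : ℝ} {h b c : ℕ} (hf : Far m B h b c) : Far m B h c b := by
  unfold Far at hf ⊢
  rw [abs_sub_comm]
  exact hf

/-- the conditions -/
structure Tup.OK (q D : ℕ) (B : ℝ) (h w b₀ : ℕ) (H : Matrix (Fin (2 * g)) (Fin (2 * g)) ℚ) (C : Mn (2 * g) ℂ)
    (t : Tup m N g r₀) : Prop where
  b_mem : ∀ j, b₀ ≤ t.b j ∧ t.b j ≤ b₀ + w
  sep : ∀ i j, t.b i = t.b j ∨ Far m B h (t.b i) (t.b j)
  c0 : t.C₀.det ≠ 0
  base : ∀ j, GBaseU (N := 1) q B (t.T j) (fun _ => t.A j) (fun _ => t.Z j) (fun _ => t.W j)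
  ha : ∀ j i, |t.a j i| ≤ h
  line : ∀ j, line (t.a j) (toMv (t.T j)) ≠ 0
  inf : ∀ X : Fin N → Mn (2 * g) ℂ, (∀ j, X j ∈ spS (cm H⁻¹)) → ∀ β,
    InfT (part t.b (fun j => lineM (t.a j) (t.Z j)) β) (fun j => if t.b j = β then C⁻¹ * X j * C else 0)
  fd : FiniteDimensional ℚ t.K
  deg : finrank ℚ t.K ≤ D
  tor : IsSubtorsor t.K t.S
  rat : RatGrp t.S
  mem : Tot t.C₀ (fun j => C * Hv (lineM (t.a j) (t.Z j)) (t.b j)) ∈ t.S
  pres : ∀ j, ∃ (A : AbVar g) (R : Matrix (Fin (2 * g)) (Fin (2 * g)) ℚ), Pres A H (C * Hv (lineM (t.a j) (t.Z j)) (t.b j)) R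

/-- the conclusion -/
def Tup.Good (H : Matrix (Fin (2 * g)) (Fin (2 * g)) ℚ) (t : Tup m N g r₀) : Prop :=
  ∀ i, ∀ X ∈ spS (cm H⁻¹), ib (r₀ := r₀) i X ∈ Lm t.S

/-- the centre -/
structure Ctr (θ : ℂ) (D : ℕ) (H : Matrix (Fin (2 * g)) (Fin (2 * g)) ℚ) (C : Mn (2 * g) ℂ) : Prop where
  skew : Hᵀ = -H
  hd : IsUnit H.det
  cd : IsUnit C.det
  leg : ∃ Q : Mn (2 * g) ℂ, (∀ i j, Bd D (Q i j)) ∧ C * Q * Cᵀ = θ • cm H

/-- a special centre -/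
def SpecialC (D : ℕ) (H : Matrix (Fin (2 * g)) (Fin (2 * g)) ℚ) (C : Mn (2 * g) ℂ) : Prop :=
  ∃ (A : AbVar g) (R : Matrix (Fin (2 * g)) (Fin (2 * g)) ℚ) (K : Subfield ℂ) (S : Set (Mn (2 * g) ℂ)),
    FiniteDimensional ℚ K ∧ finrank ℚ K ≤ D ∧ Spc A H C R K S

/-- the first condition on the additional periods -/
def LA (g e : ℕ) {s : ℕ} (β : Fin s → ℂ) (C : Mn (2 * g) ℂ) (C₀ : Matrix (Fin r₀) (Fin r₀) ℂ) : Prop :=
  s < (2 * g + 1).choose 2 ∧ ∃ κ : ℂ, κ ≠ 0 ∧ (∀ i j, Ag e β (κ * C₀ i j)) ∧ ∀ i j, Ag e β (κ * C i j)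

/-- the second condition on the additional periods -/
def LB (g e : ℕ) (θ : ℂ) {s : ℕ} (β : Fin s → ℂ) (C : Mn (2 * g) ℂ) (C₀ : Matrix (Fin r₀) (Fin r₀) ℂ) : Prop :=
  s + 3 ≤ 2 * g ∧ ∀ i j, Ag e (gens θ C β) (C₀ i j)

/-- the data of several tuples -/
theorem dat_of (L N m g q : ℕ) : ∃ q' c : ℕ, ∀ (E : ℕ) (B : ℝ) (h w b₀ : ℕ), 1 ≤ B →
    (2 * B * ((h : ℝ) + w + 2)) ^ (c * E) ≤ (b₀ : ℝ) → ∀ (r₀ D s : ℕ) (θ : ℂ) (H : Matrix (Fin (2 * g)) (Fin (2 * g)) ℚ)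
    (C : Mn (2 * g) ℂ) (β : Fin s → ℂ), Ctr θ D H C → ∀ t : Fin L → Tup m N g r₀, (∀ l, (t l).OK q D B h w b₀ H C) →
    (∀ l l', l ≠ l' → ∀ j j', Far m B h ((t l).b j) ((t l').b j')) →
    ∃ d : Dat L N g r₀ s, d.OK θ q' D E ∧ d.β = β ∧ d.H = H ∧ d.C = C ∧ (∀ l, d.C₀ l = (t l).C₀) ∧ ∀ l, d.S l = (t l).S := by
  obtain ⟨q', c, hqc⟩ := pt_of L N m (2 * g) q
  refine ⟨q', c, fun E B h w b₀ hB hbig r₀ D s θ H C β hC t ht hsep => ?_⟩
  obtain ⟨p, hp, hpZ, hpb⟩ := hqc E B h w b₀ hB hbig (cm H⁻¹) C (fun l => (t l).b) (fun l => (ht l).b_mem)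
    (fun l j l' j' hne => by
      by_cases hl : l = l'
      · subst hl
        rcases (ht l).sep j j' with h1 | h1
        · exact absurd ⟨rfl, h1⟩ hne
        · exact h1
      · exact hsep l l' hl j j')
    (fun l => (t l).T) (fun l => (t l).A) (fun l => (t l).Z) (fun l => (t l).W) (fun l => (t l).a)
    (fun l => (ht l).base) (fun l => (ht l).ha) (fun l => (ht l).line) fun l => (ht l).inf
  refine ⟨⟨β, C, H, fun l => (t l).C₀, p, fun l => (t l).K, fun l => (t l).S⟩, ⟨hC.skew, hC.hd, hC.cd, hC.leg,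
    fun l => (ht l).c0, hp, fun l => (ht l).fd, fun l => (ht l).deg, fun l => (ht l).tor, fun l => (ht l).rat,
    fun l => ?_, fun l j => ?_⟩, rfl, rfl, rfl, fun l => rfl, fun l => rfl⟩
  · simp only [hpZ, hpb]
    exact (ht l).mem
  · simp only [hpZ, hpb]
    exact (ht l).pres j

/-- **The first theorem.** -/
theorem finA (hg : 2 ≤ g) (m N r₀ s q D e : ℕ) {θ : ℂ} (hθ : θ ≠ 0) : ∃ E : ℕ, ∀ (B : ℝ) (h w b₀ : ℕ), 1 ≤ B →
    (2 * B * ((h : ℝ) + w + 2)) ^ E ≤ (b₀ : ℝ) → ∀ (H : Matrix (Fin (2 * g)) (Fin (2 * g)) ℚ) (C : Mn (2 * g) ℂ)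
    (β : Fin s → ℂ), Ctr θ D H C → SpecialC D H C → ∀ t : Tup m N g r₀, t.OK q D B h w b₀ H C →
    (LA g e β C t.C₀ ∨ LB g e θ β C t.C₀) → t.Good H := by
  obtain ⟨q', c, hqc⟩ := dat_of 1 N m g q
  obtain ⟨E₁, hE₁⟩ := uniA hg N r₀ s q' D e hθ
  obtain ⟨E₂, hE₂⟩ := uniB hg N r₀ s q' D e hθ
  refine ⟨c * (E₁ + E₂), fun B h w b₀ hB hbig H C β hC hS t ht hl => ?_⟩
  have hx1 : (1 : ℝ) ≤ 2 * B * ((h : ℝ) + w + 2) := by
    have hh0 : (0 : ℝ) ≤ h := by positivity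
    have hw0 : (0 : ℝ) ≤ w := by positivity
    nlinarith
  have hbig' : ∀ E, E ≤ E₁ + E₂ → (2 * B * ((h : ℝ) + w + 2)) ^ (c * E) ≤ (b₀ : ℝ) := fun E hE =>
    (pow_le_pow_right₀ hx1 (Nat.mul_le_mul_left _ hE)).trans hbig
  rcases hl with hl | hl
  · obtain ⟨d, hd, e1, e2, e3, e4, e5⟩ := hqc E₁ B h w b₀ hB (hbig' _ (by omega)) r₀ D s θ H C β hC (fun _ => t)
      (fun _ => ht) fun l l' hl => absurd (Subsingleton.elim l l') hl
    have h1 := hE₁ d hd (by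
      unfold Dat.Special
      rw [e2, e3]
      exact hS) (by
      refine ⟨hl.1, fun l => ?_⟩
      rw [e4, e1, e3]
      exact hl.2)
    unfold Dat.Good at h1
    rw [e2, e5] at h1
    exact h1
  · obtain ⟨d, hd, e1, e2, e3, e4, e5⟩ := hqc E₂ B h w b₀ hB (hbig' _ (by omega)) r₀ D s θ H C β hC (fun _ => t)
      (fun _ => ht) fun l l' hl => absurd (Subsingleton.elim l l') hl
    have h1 := hE₂ d hd (by
      unfold Dat.Special
      rw [e2, e3]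
      exact hS) (by
      refine ⟨hl.1, fun l => ?_⟩
      rw [e4, e1, e3]
      exact hl.2)
    unfold Dat.Good at h1
    rw [e2, e5] at h1
    exact h1

/-- **The second theorem.** -/
theorem finB (hg : 2 ≤ g) (m N r₀ s q D e M : ℕ) (hN : 0 < N) {θ : ℂ} (hθ : θ ≠ 0) : ∃ E : ℕ, ∀ (B : ℝ) (h w b₀ : ℕ),
    1 ≤ B → (2 * B * ((h : ℝ) + w + 2)) ^ E ≤ (b₀ : ℝ) → ∀ (H : Matrix (Fin (2 * g)) (Fin (2 * g)) ℚ) (C : Mn (2 * g) ℂ)
    (β : Fin s → ℂ), Ctr θ D H C → ∃ F : Finset ℕ, F.card ≤ M ∧ ∀ t : Tup m N g r₀, t.OK q D B h w b₀ H C →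
    (Finset.univ.image t.b).card ≤ M → (∀ j, ∀ c ∈ F, Far m B h (t.b j) c) → LB g e θ β C t.C₀ → t.Good H := by
  classical
  obtain ⟨q', c, hqc⟩ := dat_of 2 N m g q
  obtain ⟨E₁, hE₁⟩ := uniD hg N r₀ s q' D e hN hθ
  refine ⟨c * E₁, fun B h w b₀ hB hbig H C β hC => ?_⟩
  by_cases hbad : ∃ t : Tup m N g r₀, t.OK q D B h w b₀ H C ∧ (Finset.univ.image t.b).card ≤ M ∧ LB g e θ β C t.C₀ ∧
      ¬ t.Good H
  · obtain ⟨t₀, h1, h2, h3, h4⟩ := hbad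
    refine ⟨Finset.univ.image t₀.b, h2, fun t ht htM hF hl => ?_⟩
    by_contra hcon
    have hsep : ∀ j j', Far m B h (t.b j) (t₀.b j') := fun j j' => hF j _ (Finset.mem_image_of_mem _ (Finset.mem_univ _))
    obtain ⟨d, hd, e1, e2, e3, e4, e5⟩ := hqc E₁ B h w b₀ hB hbig r₀ D s θ H C β hC
      (fun l => if l = 0 then t else t₀) (fun l => by
        by_cases hl0 : l = 0
        · rw [if_pos hl0]
          exact ht
        · rw [if_neg hl0]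
          exact h1) (fun l l' hll j j' => by
        by_cases hl0 : l = 0 <;> by_cases hl1 : l' = 0
        · exact absurd (hl0.trans hl1.symm) hll
        · rw [if_pos hl0, if_neg hl1]
          exact hsep j j'
        · rw [if_neg hl0, if_pos hl1]
          exact (hsep j' j).symm
        · exact absurd (by omega) hll)
    obtain ⟨l, hlg⟩ := hE₁ d hd ⟨hl.1, fun l => by
      rw [e4, e1, e3]
      by_cases hl0 : l = 0
      · rw [if_pos hl0]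
        exact hl.2
      · rw [if_neg hl0]
        exact h3.2⟩
    unfold Dat.Good at hlg
    rw [e2, e5] at hlg
    by_cases hl0 : l = 0
    · rw [if_pos hl0] at hlg
      exact hcon hlg
    · rw [if_neg hl0] at hlg
      exact h4 hlg
  · push Not at hbad
    exact ⟨∅, by simp, fun t ht htM _ hl => hbad t ht htM hl⟩

end Pool.Agent.H936.V
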