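import Pool.Agent.H936.V.Spc
import Pool.Agent.H885.UnifQ

/-!
# Uniform sequences of points
-/

set_option autoImplicit false
set_option linter.unusedSectionVars false
set_option linter.unusedVariables false

open Matrix Module Filter PowerSeries

namespace Pool.Agent.H936.V

open Pool.Agent.Y113 (ev Cv GSys ps)
open Pool.Agent.Y118.HV (Hv hh)
open Pool.Agent.Y120.GH (cx cx_mem Cw sf ou_shift ou_ev)
open Pool.Agent.Helper880_LF (om pr spS mem_spS comm_mem)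
open Pool.Agent.Helper880_LF.NB (gm gm_mul gm_add gm_sub gm_smul gm_zero gm_one gm_ev gm_eq gm_surj gm_neg gm_unit gm_apply
  gm_transpose gm_kt kt kt_apply dm dm_mul dm_smul dm_transpose Lst mem_Lst normL rank_le kerD mem_kerD ker_alg)
open Pool.Agent.Helper880_R3 (Ix ib Tot)
open Pool.Agent.Y118.UL (mk mk_eq mk_eq_zero mk_ne_zero mk_surj ev_ge rep U)
open Pool.Agent.Y119.HY (cm cm_apply cm_mul cm_one cm_transpose cm_zero cm_add cm_neg cm_pow)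
open Pool.Agent.Y123.ST (fl um LL LL_def fl_um um_fl)
open Pool.Agent.TH127.PT (IsSubtorsor)
open Pool.Agent.Y102 (AbVar QBar)
open Pool.Agent.H936.SL (Mn GS Pj TN Lm RatGrp Pres Lev finrank_spS_ge)
open Pool.Agent.H936.G (DD ld Fu mkLev upS mem_upS upS_dim Spc cm_unit cm_unit')
open Pool.Agent.H885 (Sys InfT part hder_gen curveP fs sn)

variable {n N r₀ L g : ℕ}

/-- the points and the families, for several tuples of points -/
structure Pt (L n N : ℕ) where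
  B : ℝ
  T : Fin L → Fin N → Polynomial ℤ
  A : Fin L → Fin N → Fin n → Fin n → Polynomial ℤ
  Z : Fin L → Fin N → Matrix (Fin n) (Fin n) ℚ⟦X⟧
  W : Fin L → Fin N → Matrix (Fin n) (Fin n) ℚ⟦X⟧
  ρ : ℝ
  w : ℕ
  b₀ : ℕ
  b : Fin L → Fin N → ℕ

/-- the conditions -/
structure Pt.OK (q E : ℕ) (J C : Mn n ℂ) (d : Pt L n N) : Prop where
  one_le : 1 ≤ d.B
  sys : ∀ l j, Sys (N := 1) q d.B (d.T l j) (fun _ => d.A l j) (fun _ => d.Z l j) (fun _ => d.W l j)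
  T_ne : ∀ l j, d.T l j ≠ 0
  ρ_pos : 0 < d.ρ
  mem : ∀ l j a b, cx (d.Z l j a b) ∈ Cw d.ρ
  b_mem : ∀ l j, d.b₀ ≤ d.b l j ∧ d.b l j ≤ d.b₀ + d.w
  sep : ∀ l j l' j', ¬ (l = l' ∧ d.b l j = d.b l' j') → 2 * d.ρ < |(d.b l j : ℝ) - d.b l' j'|
  big : (2 * d.B * ((d.w : ℝ) + d.ρ + 2)) ^ E ≤ (d.b₀ : ℝ)
  inf : ∀ l, ∀ X : Fin N → Mn n ℂ, (∀ j, X j ∈ spS J) → ∀ β,
    InfT (part (d.b l) (d.Z l) β) (fun j => if d.b l j = β then C⁻¹ * X j * C else 0)

/-- the values at the points -/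
noncomputable def Pt.z (d : Pt L n N) (i : Fin (L * N)) : Mn n ℂ := Hv (d.Z (fs i) (sn i)) (d.b (fs i) (sn i))

/-- the index of a point of a tuple -/
def ix (l : Fin L) (j : Fin N) : Fin (L * N) := finProdFinEquiv (l, j)

theorem fs_ix (l : Fin L) (j : Fin N) : fs (ix l j) = l := by
  unfold fs ix
  rw [Equiv.symm_apply_apply]

theorem sn_ix (l : Fin L) (j : Fin N) : sn (ix l j) = j := by
  unfold sn ix
  rw [Equiv.symm_apply_apply]

theorem ix_inj {l l' : Fin L} {j j' : Fin N} (h : ix l j = ix l' j') : l = l' ∧ j = j' := by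
  have h1 := finProdFinEquiv.injective h
  exact ⟨congrArg Prod.fst h1, congrArg Prod.snd h1⟩

theorem Pt.z_ix (d : Pt L n N) (l : Fin L) (j : Fin N) : d.z (ix l j) = Hv (d.Z l j) (d.b l j) := by
  unfold Pt.z
  rw [fs_ix, sn_ix]

/-- **the derivations** -/
theorem der_pts {q : ℕ} {C J : ℕ → Mn n ℂ} {d : ℕ → Pt L n N} (hd : ∀ k, (d k).OK q k (J k) (C k)) (i : Fin (L * N))
    {G : ℕ → Mn n ℂ} (hG : ∀ k, G k ∈ spS (J k)) : ∃ δ : DD,
      dm δ (gm fun k => (d k).z i) = gm (fun k => (C k)⁻¹ * G k * C k) * (gm fun k => (d k).z i) ∧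
      ∀ j, j ≠ i → dm δ (gm fun k => (d k).z j) = 0 := by
  classical
  set Y : ℕ → Fin L → Fin N → Mn n ℂ := fun k l j => if ix l j = i then G k else 0 with hY
  have hYs : ∀ k l j, Y k l j ∈ spS (J k) := by
    intro k l j
    rw [hY]
    simp only
    split_ifs
    · exact hG k
    · exact Submodule.zero_mem _
  obtain ⟨δ, hδ⟩ := hder_gen (z := fun k (i : Fin (L * N)) => (d k).z i)
    (X := fun k i => (C k)⁻¹ * Y k (fs i) (sn i) * C k)
    (fun e' => by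
      obtain ⟨E, hE⟩ := curveP L N n q e'
      filter_upwards [ev_ge E] with k hk P hPd hP s
      have hH := (hd k).one_le
      have hw0 : (0 : ℝ) ≤ (d k).w := by positivity
      have hρ := (hd k).ρ_pos
      refine hE (d k).B hH (d k).T (d k).A (d k).Z (d k).W (hd k).sys (hd k).T_ne (d k).ρ hρ (hd k).mem (d k).w (d k).b₀
        (d k).b (hd k).b_mem (hd k).sep ((pow_le_pow_right₀ (by nlinarith) hk).trans (hd k).big)
        (fun l j => (C k)⁻¹ * Y k l j * C k)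
        (fun l' β => (hd k).inf l' (Y k l') (hYs k l') β) P hPd hP s)
  have hYi : ∀ k, Y k (fs i) (sn i) = G k := by
    intro k
    have h1 : ix (fs i) (sn i) = i := by
      unfold ix fs sn
      rw [Prod.mk.eta, Equiv.apply_symm_apply]
    rw [hY]
    simp only [h1, if_true]
  refine ⟨δ, ?_, fun j hj => ?_⟩
  · rw [hδ i, ← gm_mul]
    congr 1
    funext k
    rw [hYi]
  · rw [hδ j]
    have h3 : (fun k => (C k)⁻¹ * Y k (fs j) (sn j) * C k * (d k).z j) = fun _ => 0 := by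
      funext k
      have h1 : ix (fs j) (sn j) = j := by
        unfold ix fs sn
        rw [Prod.mk.eta, Equiv.apply_symm_apply]
      have h2 : Y k (fs j) (sn j) = 0 := by
        rw [hY]
        simp only [h1, if_neg hj]
      rw [h2, Matrix.mul_zero, Matrix.zero_mul, Matrix.zero_mul]
    rw [h3, gm_zero]

theorem Cen.sq_pts {D q : ℕ} {H : ℕ → Matrix (Fin n) (Fin n) ℚ} {C : ℕ → Mn n ℂ} {θ : ℂ} (hc : Cen D H C θ)
    {d : ℕ → Pt L n N} (hd : ∀ k, (d k).OK q k (JJ H k) (C k)) (hz : ∀ k i, ((d k).z i).det ≠ 0) :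
    Sq (JJ H) C fun k i => (d k).z i :=
  hc.sq hz fun i G hG => der_pts hd i hG

/-- all data -/
structure Dat (L N g r₀ s : ℕ) where
  β : Fin s → ℂ
  C : Mn (2 * g) ℂ
  H : Matrix (Fin (2 * g)) (Fin (2 * g)) ℚ
  C₀ : Fin L → Matrix (Fin r₀) (Fin r₀) ℂ
  pt : Pt L (2 * g) N
  K : Fin L → Subfield ℂ
  S : Fin L → Set (Matrix (Ix r₀ (2 * g) N) (Ix r₀ (2 * g) N) ℂ)

/-- the conditions -/
structure Dat.OK (θ : ℂ) (q D E : ℕ) {s : ℕ} (d : Dat L N g r₀ s) : Prop where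
  skew : d.Hᵀ = -d.H
  hd : IsUnit d.H.det
  cd : IsUnit d.C.det
  leg : ∃ Q : Mn (2 * g) ℂ, (∀ i j, Bd D (Q i j)) ∧ d.C * Q * (d.C)ᵀ = θ • cm d.H
  c0 : ∀ l, (d.C₀ l).det ≠ 0
  pt : d.pt.OK q E (cm (d.H)⁻¹) d.C
  fd : ∀ l, FiniteDimensional ℚ (d.K l)
  deg : ∀ l, finrank ℚ (d.K l) ≤ D
  tor : ∀ l, IsSubtorsor (d.K l) (d.S l)
  rat : ∀ l, RatGrp (d.S l)
  mem : ∀ l, Tot (d.C₀ l) (fun j => d.C * Hv (d.pt.Z l j) (d.pt.b l j)) ∈ d.S l
  pres : ∀ l j, ∃ (A : AbVar g) (R : Matrix (Fin (2 * g)) (Fin (2 * g)) ℚ), Pres A d.H (d.C * Hv (d.pt.Z l j) (d.pt.b l j)) R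

/-- the condition on the additional periods, first form -/
def Dat.LinkA (e b : ℕ) {s : ℕ} (d : Dat L N g r₀ s) : Prop :=
  s < (2 * g + 1).choose 2 + b ∧ ∀ l, ∃ κ : ℂ, κ ≠ 0 ∧ (∀ i j, Ag e d.β (κ * d.C₀ l i j)) ∧ ∀ i j, Ag e d.β (κ * d.C i j)

/-- the condition on the additional periods, second form -/
def Dat.LinkB (θ : ℂ) (e : ℕ) {s : ℕ} (d : Dat L N g r₀ s) : Prop :=
  s + 3 ≤ 2 * g ∧ ∀ l i j, Ag e (gens θ d.C d.β) (d.C₀ l i j)

section
variable {s : ℕ}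

theorem Dat.OK.cen {θ : ℂ} (hθ : θ ≠ 0) {q D : ℕ} {d : ℕ → Dat L N g r₀ s} (h : ∀ k, (d k).OK θ q D k) :
    Cen D (fun k => (d k).H) (fun k => (d k).C) θ where
  skew k := (h k).skew
  hd k := (h k).hd
  cd k := (h k).cd
  ne := hθ
  leg k := (h k).leg

theorem Dat.OK.zdet {θ : ℂ} {q D E : ℕ} {d : Dat L N g r₀ s} (h : d.OK θ q D E) (l : Fin L) (j : Fin N) :
    (Hv (d.pt.Z l j) (d.pt.b l j)).det ≠ 0 := by
  have h4 := (Pool.Agent.Helper880_R3.Tot_unit ((h.tor l).isUnit _ (h.mem l))).2 j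
  have h5 := (Matrix.isUnit_iff_isUnit_det _).1 h4
  rw [Matrix.det_mul] at h5
  exact (isUnit_of_mul_isUnit_right h5).ne_zero

theorem Dat.OK.sq {θ : ℂ} (hθ : θ ≠ 0) {q D : ℕ} {d : ℕ → Dat L N g r₀ s} (h : ∀ k, (d k).OK θ q D k) :
    Sq (JJ fun k => (d k).H) (fun k => (d k).C) fun k i => (d k).pt.z i :=
  (Dat.OK.cen hθ h).sq_pts (d := fun k => (d k).pt) (fun k => (h k).pt) fun k i => (h k).zdet _ _

theorem Dat.OK.lev {θ : ℂ} {q D E : ℕ} {d : Dat L N g r₀ s} (h : d.OK θ q D E) (l : Fin L) :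
    ∃ (A : Fin N → AbVar g) (R : Fin N → Matrix (Fin (2 * g)) (Fin (2 * g)) ℚ),
      Lev (d.K l) A d.H (d.C₀ l) (fun j => d.C * Hv (d.pt.Z l j) (d.pt.b l j)) R (d.S l) := by
  choose A R hAR using h.pres l
  exact ⟨A, R, mkLev (h.fd l) (h.tor l) (h.rat l) (h.mem l) hAR h.hd⟩

theorem few_A {θ : ℂ} (hθ : θ ≠ 0) {q D e b : ℕ} {d : ℕ → Dat L N g r₀ s} (h : ∀ k, (d k).OK θ q D k)
    (hl : ∀ k, (d k).LinkA e b) :
    FewG (finrank (U ℂ) (spS (gm (JJ fun k => (d k).H))) + b) (fun k => (d k).C) fun (l : Fin L) k => (d k).C₀ l := by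
  have hc := Dat.OK.cen hθ h
  have hdim : (2 * g + 1).choose 2 ≤ finrank (U ℂ) (spS (gm (JJ fun k => (d k).H))) :=
    finrank_spS_ge (gm_skew (JJ_skew hc.skew)) (gm_unit (JJ_det hc.hd))
  refine fewG_a (fun l k => (h k).c0 l) (fun k => (h k).cd.ne_zero) (fun k => (d k).β) (fun l k => (hl k).2 l) ?_
  exact (hl 0).1.trans_le (Nat.add_le_add_right hdim _)

theorem few_B {θ : ℂ} (hθ : θ ≠ 0) (hg : 0 < g) {q D e b : ℕ} {d : ℕ → Dat L N g r₀ s} (h : ∀ k, (d k).OK θ q D k)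
    (hl : ∀ k, (d k).LinkB θ e) (𝔊 : Submodule (U ℂ) (Mn (2 * g) (U ℂ)))
    (hG : ∀ δ : DD, ld (fun k => (d k).C) δ ∈ 𝔊)
    (hGd : s + 3 ≤ 2 * g → finrank (U ℂ) 𝔊 + s < b) :
    FewG b (fun k => (d k).C) fun (l : Fin L) k => (d k).C₀ l :=
  fewG_b (Dat.OK.cen hθ h) (by omega) 𝔊 hG (fun k => (d k).β) (fun l k i j => (hl k).2 l i j) (hGd (hl 0).1)

/-- a special central fibre -/
def Dat.Special (D : ℕ) (d : Dat L N g r₀ s) : Prop :=
  ∃ (A : AbVar g) (R : Matrix (Fin (2 * g)) (Fin (2 * g)) ℚ) (K : Subfield ℂ) (S : Set (Mn (2 * g) ℂ)),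
    FiniteDimensional ℚ K ∧ finrank ℚ K ≤ D ∧ Spc A d.H d.C R K S

/-- the conclusion -/
def Dat.Good (d : Dat L N g r₀ s) (l : Fin L) : Prop :=
  ∀ i, ∀ X ∈ spS (cm (d.H)⁻¹), ib (r₀ := r₀) i X ∈ Lm (d.S l)

/-- the core of the first theorem -/
theorem core_one (hg : 2 ≤ g) {θ : ℂ} (hθ : θ ≠ 0) {q D : ℕ} {d : ℕ → Dat L N g r₀ s} (h : ∀ k, (d k).OK θ q D k)
    (hS : ∀ k, (d k).Special D) (l : Fin L)
    (hfew : ∀ 𝔊 : Submodule (U ℂ) (Mn (2 * g) (U ℂ)), (∀ δ : DD, ld (fun k => (d k).C) δ ∈ 𝔊) →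
      finrank (U ℂ) 𝔊 + (2 * g - 1) ≤ finrank (U ℂ) (spS (gm (JJ fun k => (d k).H))) + 1 →
      FewG (finrank (U ℂ) (spS (gm (JJ fun k => (d k).H)))) (fun k => (d k).C) fun (l : Fin L) k => (d k).C₀ l) :
    ∃ k, (d k).Good l := by
  have hc := Dat.OK.cen hθ h
  choose A₀ R₀ K₀ S₀ hK₀ hD₀ hspc using hS
  obtain ⟨𝔉, d1, d2, d3, d4⟩ := spc_data hg hc hK₀ hD₀ hspc
  choose A R hlev using fun k => (h k).lev l
  have hf := hfew (upS 𝔉) (fun δ => by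
    obtain ⟨c, hcc⟩ := d2 δ
    exact mem_upS hcc) (by
    have := upS_dim 𝔉
    omega)
  obtain ⟨V, i1, i2, i3, Φ, hV, hΦ⟩ := hf
  have hj := (Dat.OK.sq hθ h).core1 (C₀ := fun k => (d k).C₀ l) (fun k => (h k).c0 l) (e := ix l)
    (fun i j hij => (ix_inj hij).2) (fun k => (h k).fd l) (fun k => (h k).deg l) (fun k => (h k).tor l)
    (fun k => by
      have h1 := (h k).mem l
      simp only [Pt.z_ix]
      exact h1)
    (fun k i => (hlev k).TN (h k).skew i) (fun k i => (hlev k).ne (by omega) i) d1 d2 d3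
    ⟨V, i1, i2, i3, Φ, hV, fun _ δ hδ => hΦ l δ hδ⟩
  obtain ⟨k, hk⟩ := hj.exists
  exact ⟨k, hk⟩

/-- **The first theorem**: all fibres near special central fibres, uniformly. -/
theorem uniA (hg : 2 ≤ g) (N r₀ s q D e : ℕ) {θ : ℂ} (hθ : θ ≠ 0) : ∃ E : ℕ, ∀ d : Dat 1 N g r₀ s,
    d.OK θ q D E → d.Special D → d.LinkA e 0 → d.Good 0 := by
  by_contra hcon
  simp only [not_exists, not_forall] at hcon
  choose d h hS hl hbad using hcon
  obtain ⟨k, hk⟩ := core_one hg hθ h hS 0 fun 𝔊 hG hGd => by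
    have h1 := few_A hθ h hl
    rwa [add_zero] at h1
  exact hbad k hk

theorem uniB (hg : 2 ≤ g) (N r₀ s q D e : ℕ) {θ : ℂ} (hθ : θ ≠ 0) : ∃ E : ℕ, ∀ d : Dat 1 N g r₀ s,
    d.OK θ q D E → d.Special D → d.LinkB θ e → d.Good 0 := by
  by_contra hcon
  simp only [not_exists, not_forall] at hcon
  choose d h hS hl hbad using hcon
  obtain ⟨k, hk⟩ := core_one hg hθ h hS 0 fun 𝔊 hG hGd => few_B hθ (by omega) h hl 𝔊 hG (by omega)
  exact hbad k hk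

/-- the core of the second theorem -/
theorem core_two (hg : 2 ≤ g) (hN : 0 < N) {θ : ℂ} (hθ : θ ≠ 0) {q D : ℕ} {d : ℕ → Dat 2 N g r₀ s}
    (h : ∀ k, (d k).OK θ q D k)
    (hf : FewG (finrank (U ℂ) (spS (gm (JJ fun k => (d k).H))) + (2 * g - 1)) (fun k => (d k).C)
      fun (l : Fin 2) k => (d k).C₀ l) : ∃ k l, (d k).Good l := by
  have hc := Dat.OK.cen hθ h
  choose A R hlev using fun l k => (h k).lev l
  by_contra hcon
  push Not at hcon
  obtain ⟨p, hp⟩ := (Dat.OK.sq hθ h).core2 (by omega) (ι := Fin 2) 0 (C₀ := fun l k => (d k).C₀ l) (fun l k => (h k).c0 l)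
    (e := fun l => ix l)
    (fun l i j hij => (ix_inj hij).2) (fun l k => (h k).fd l) (fun l k => (h k).deg l) (fun l k => (h k).tor l)
    (fun l k => by
      have h1 := (h k).mem l
      simp only [Pt.z_ix]
      exact h1)
    (fun l k i => (hlev l k).TN (h k).skew i) (fun l k i => (hlev l k).ne (by omega) i) hf (fun l hx => by
      obtain ⟨k, hk⟩ := hx.exists
      exact hcon k l hk)
  obtain ⟨i, hi⟩ := hp 0
  obtain ⟨j, hj⟩ := hp 1
  exact absurd (ix_inj (hi.trans hj.symm)).1 (by decide)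

theorem ld_upS {θ : ℂ} (hθ : θ ≠ 0) {q D : ℕ} {d : ℕ → Dat L N g r₀ s} (h : ∀ k, (d k).OK θ q D k) (δ : DD) :
    ld (fun k => (d k).C) δ ∈ upS (spS (gm (JJ fun k => (d k).H))) := by
  obtain ⟨c, hcc⟩ := (Dat.OK.cen hθ h).gs δ
  exact mem_upS hcc

/-- **The second theorem**: one of two separated tuples is good. -/
theorem uniC (hg : 2 ≤ g) (N r₀ s q D e : ℕ) (hN : 0 < N) {θ : ℂ} (hθ : θ ≠ 0) : ∃ E : ℕ, ∀ d : Dat 2 N g r₀ s,
    d.OK θ q D E → d.LinkA e (2 * g - 1) → ∃ l, d.Good l := by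
  by_contra hcon
  simp only [not_exists, not_forall] at hcon
  choose d h hl hbad using hcon
  obtain ⟨k, l, hk⟩ := core_two hg hN hθ h (few_A hθ h hl)
  exact hbad k l hk

theorem uniD (hg : 2 ≤ g) (N r₀ s q D e : ℕ) (hN : 0 < N) {θ : ℂ} (hθ : θ ≠ 0) : ∃ E : ℕ, ∀ d : Dat 2 N g r₀ s,
    d.OK θ q D E → d.LinkB θ e → ∃ l, d.Good l := by
  by_contra hcon
  simp only [not_exists, not_forall] at hcon
  choose d h hl hbad using hcon
  obtain ⟨k, l, hk⟩ := core_two hg hN hθ h (few_B hθ (by omega) h hl _ (ld_upS hθ h) (by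
    intro h1
    refine (Nat.add_le_add_right (upS_dim _) s).trans_lt ?_
    rw [add_assoc]
    exact Nat.add_lt_add_left (by omega) _))
  exact hbad k l hk

end

end Pool.Agent.H936.V
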