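import Pool.Agent.H936.V.Ag

/-!
# Subtorsors which are given by conditions on some of the blocks
-/

set_option autoImplicit false
set_option linter.unusedSectionVars false
set_option linter.unusedVariables false

open Matrix Module

namespace Pool.Agent.H936.V

open Pool.Agent.Helper880_LF (om pr spS mem_spS)
open Pool.Agent.Helper880_R3 (Ix ib Tot)
open Pool.Agent.Y119.HY (cm cm_apply cm_mul cm_one cm_transpose cm_zero cm_add cm_neg)
open Pool.Agent.TH127.PT (IsSubtorsor)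
open Pool.Agent.Y102 (AbVar)
open Pool.Agent.H936.SL (Mn Lm RatGrp Pres Tot_mul' Tot_one' map_inv_aut Tot_inv)
open Pool.Agent.H936.G (Spc isUnit_inv)

variable {n N r₀ g : ℕ}

theorem inv_unit {B : Type} [Fintype B] [DecidableEq B] {x : Matrix B B ℂ} (hx : IsUnit x) : IsUnit x⁻¹ := by
  have hu := (Matrix.isUnit_iff_isUnit_det _).1 hx
  refine (Matrix.isUnit_iff_isUnit_det _).2 ?_
  rw [Matrix.det_nonsing_inv]
  exact hu.ringInverse

/-- the subtorsor of the block diagonal isomorphisms with a condition on the blocks -/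
def BT (r₀ : ℕ) (S' : Set (Fin N → Mn n ℂ)) : Set (Matrix (Ix r₀ n N) (Ix r₀ n N) ℂ) :=
  {x | IsUnit x ∧ ∃ (y : Matrix (Fin r₀) (Fin r₀) ℂ) (Y : Fin N → Mn n ℂ), x = Tot y Y ∧ Y ∈ S'}

/-- the positions of the entries of the blocks -/
def pos (q : Fin N × Fin n × Fin n) : Ix r₀ n N × Ix r₀ n N := (Sum.inr (q.2.1, q.1), Sum.inr (q.2.2, q.1))

/-- the positions outside of the blocks -/
def off : Set (Ix r₀ n N × Ix r₀ n N) := {p | ∀ (y : Matrix (Fin r₀) (Fin r₀) ℂ) (Y : Fin N → Mn n ℂ), Tot y Y p.1 p.2 = 0}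

theorem Tot_inr (y : Matrix (Fin r₀) (Fin r₀) ℂ) (Y : Fin N → Mn n ℂ) (a b : Fin n) (i j : Fin N) :
    Tot y Y (Sum.inr (a, i)) (Sum.inr (b, j)) = if i = j then Y i a b else 0 := by
  show blockDiagonal Y (a, i) (b, j) = _
  rw [blockDiagonal_apply]

theorem Tot_pos (y : Matrix (Fin r₀) (Fin r₀) ℂ) (Y : Fin N → Mn n ℂ) (q : Fin N × Fin n × Fin n) :
    Tot y Y (pos (r₀ := r₀) q).1 (pos (r₀ := r₀) q).2 = Y q.1 q.2.1 q.2.2 := by
  show blockDiagonal Y (q.2.1, q.1) (q.2.2, q.1) = _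
  rw [blockDiagonal_apply, if_pos rfl]

theorem eq_Tot {x : Matrix (Ix r₀ n N) (Ix r₀ n N) ℂ} (h : ∀ p ∈ (off : Set (Ix r₀ n N × Ix r₀ n N)), x p.1 p.2 = 0) :
    x = Tot (x.toBlocks₁₁) fun i => Matrix.of fun k l => x (Sum.inr (k, i)) (Sum.inr (l, i)) := by
  ext a b
  rcases a with a | ⟨a, i⟩ <;> rcases b with b | ⟨b, j⟩
  · rfl
  · exact h (Sum.inl a, Sum.inr (b, j)) fun y Y => rfl
  · exact h (Sum.inr (a, i), Sum.inl b) fun y Y => rfl
  · by_cases hij : i = j
    · subst hij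
      rw [Tot_inr, if_pos rfl]
      rfl
    · rw [Tot_inr, if_neg hij]
      exact h (Sum.inr (a, i), Sum.inr (b, j)) fun y Y => by
        show Tot y Y (Sum.inr (a, i)) (Sum.inr (b, j)) = 0
        rw [Tot_inr, if_neg hij]

/-- **the subtorsor** -/
theorem BT_tor {K : Subfield ℂ} {S' : Set (Fin N → Mn n ℂ)} {I : Set (MvPolynomial (Fin N × Fin n × Fin n) ℂ)}
    (hI : ∀ p ∈ I, ∀ m, p.coeff m ∈ K)
    (hS' : ∀ Y : Fin N → Mn n ℂ, (∀ i, IsUnit (Y i)) → (Y ∈ S' ↔ ∀ p ∈ I, MvPolynomial.eval (fun q => Y q.1 q.2.1 q.2.2) p = 0))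
    (htor : ∀ X Y Z : Fin N → Mn n ℂ, (∀ i, IsUnit (X i)) → (∀ i, IsUnit (Y i)) → (∀ i, IsUnit (Z i)) → X ∈ S' → Y ∈ S' →
      Z ∈ S' → (fun i => X i * (Y i)⁻¹ * Z i) ∈ S') : IsSubtorsor K (BT r₀ S') where
  isUnit x hx := hx.1
  torsor := by
    rintro _ ⟨hx, x, X, rfl, hX⟩ _ ⟨hy, y, Y, rfl, hY⟩ _ ⟨hz, z, Z, rfl, hZ⟩
    have h1 := (Pool.Agent.Helper880_R3.Tot_unit hx).2
    have h2 := (Pool.Agent.Helper880_R3.Tot_unit hy).2
    have h3 := (Pool.Agent.Helper880_R3.Tot_unit hz).2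
    refine ⟨(hx.mul (inv_unit hy)).mul hz, x * y⁻¹ * z, fun i => X i * (Y i)⁻¹ * Z i, ?_, htor X Y Z h1 h2 h3 hX hY hZ⟩
    rw [Tot_inv hy, Tot_mul', Tot_mul']
  algebraic := by
    classical
    refine ⟨(fun p : Ix r₀ n N × Ix r₀ n N => (MvPolynomial.X p : MvPolynomial (Ix r₀ n N × Ix r₀ n N) ℂ)) '' off ∪
      (MvPolynomial.rename (pos (r₀ := r₀))) '' I, ?_, fun x => ?_⟩
    · rintro _ (⟨p, -, rfl⟩ | ⟨p, hp, rfl⟩) m
      · show (MvPolynomial.X p : MvPolynomial _ ℂ).coeff m ∈ K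
        rw [MvPolynomial.coeff_X]
        split_ifs
        · exact K.one_mem
        · exact K.zero_mem
      · have hinj : Function.Injective (pos (r₀ := r₀) (n := n) (N := N)) := by
          rintro ⟨i, k, l⟩ ⟨i', k', l'⟩ h
          have h1 := (Prod.ext_iff.1 h).1
          have h2 := (Prod.ext_iff.1 h).2
          have h3 := Sum.inr_injective h1
          have h4 := Sum.inr_injective h2
          simp only [Prod.mk.injEq] at h3 h4
          rw [h3.1, h3.2, h4.1]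
        by_cases hm : ∃ m', m = Finsupp.mapDomain (pos (r₀ := r₀)) m'
        · obtain ⟨m', rfl⟩ := hm
          rw [MvPolynomial.coeff_rename_mapDomain _ hinj]
          exact hI p hp m'
        · rw [MvPolynomial.coeff_rename_eq_zero]
          · exact K.zero_mem
          · intro u hu
            exact absurd ⟨u, hu.symm⟩ hm
    · have hren : ∀ p : MvPolynomial (Fin N × Fin n × Fin n) ℂ, ∀ x : Matrix (Ix r₀ n N) (Ix r₀ n N) ℂ,
          MvPolynomial.eval (fun b : Ix r₀ n N × Ix r₀ n N => x b.1 b.2) (MvPolynomial.rename pos p) =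
          MvPolynomial.eval (fun q => x (pos (r₀ := r₀) q).1 (pos (r₀ := r₀) q).2) p := fun p x =>
        MvPolynomial.eval_rename _ _ _
      constructor
      · rintro ⟨hx, y, Y, rfl, hY⟩
        refine ⟨hx, ?_⟩
        rintro _ (⟨p, hp, rfl⟩ | ⟨p, hp, rfl⟩)
        · show MvPolynomial.eval _ (MvPolynomial.X p) = 0
          rw [MvPolynomial.eval_X]
          exact hp y Y
        · rw [hren]
          simp only [Tot_pos]
          exact (hS' Y (Pool.Agent.Helper880_R3.Tot_unit hx).2).1 hY p hp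
      · rintro ⟨hx, h⟩
        have h1 : ∀ p ∈ (off : Set (Ix r₀ n N × Ix r₀ n N)), x p.1 p.2 = 0 := by
          intro p hp
          have h2 := h _ (Or.inl ⟨p, hp, rfl⟩)
          rwa [MvPolynomial.eval_X] at h2
        have h3 := eq_Tot h1
        set Y : Fin N → Mn n ℂ := fun i => Matrix.of fun k l => x (Sum.inr (k, i)) (Sum.inr (l, i)) with hY
        refine ⟨hx, _, Y, h3, ?_⟩
        have h4 : IsUnit (Tot x.toBlocks₁₁ Y) := by rwa [← h3]
        refine (hS' Y (Pool.Agent.Helper880_R3.Tot_unit h4).2).2 fun p hp => ?_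
        have h5 := h _ (Or.inr ⟨p, hp, rfl⟩)
        rw [hren] at h5
        exact h5

theorem Tot_unit_of {x : Matrix (Fin r₀) (Fin r₀) ℂ} {X : Fin N → Mn n ℂ} (hx : IsUnit x) (hX : ∀ j, IsUnit (X j)) :
    IsUnit (Tot x X) := by
  refine IsUnit.of_mul_eq_one (Tot x⁻¹ fun j => (X j)⁻¹) ?_
  rw [Tot_mul', Matrix.mul_nonsing_inv _ ((Matrix.isUnit_iff_isUnit_det _).1 hx)]
  have h3 : (fun j => X j * (X j)⁻¹) = fun _ => 1 :=
    funext fun j => Matrix.mul_nonsing_inv _ ((Matrix.isUnit_iff_isUnit_det _).1 (hX j))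
  rw [h3, Tot_one']

theorem Tot_map (σ : ℂ ≃+* ℂ) (x : Matrix (Fin r₀) (Fin r₀) ℂ) (X : Fin N → Mn n ℂ) :
    (Tot x X).map σ = Tot (x.map σ) fun i => (X i).map σ := by
  ext a b
  rcases a with a | ⟨a, i⟩ <;> rcases b with b | ⟨b, j⟩
  · rfl
  · show σ 0 = 0
    exact map_zero σ
  · show σ 0 = 0
    exact map_zero σ
  · rw [Matrix.map_apply, Tot_inr, Tot_inr]
    split_ifs
    · rfl
    · exact map_zero σ

/-- the group is defined over the rational numbers -/
theorem BT_rat {S' : Set (Fin N → Mn n ℂ)} (hrat : ∀ (σ : ℂ ≃+* ℂ) (X Y : Fin N → Mn n ℂ), (∀ i, IsUnit (X i)) →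
    (∀ i, IsUnit (Y i)) → X ∈ S' → Y ∈ S' → ∃ X' Y' : Fin N → Mn n ℂ, (∀ i, IsUnit (X' i)) ∧ (∀ i, IsUnit (Y' i)) ∧
      X' ∈ S' ∧ Y' ∈ S' ∧ ∀ i, (X i * (Y i)⁻¹).map σ = X' i * (Y' i)⁻¹) : RatGrp (BT r₀ S') := by
  rintro σ _ ⟨hx, x, X, rfl, hX⟩ _ ⟨hy, y, Y, rfl, hY⟩
  have h1 := Pool.Agent.Helper880_R3.Tot_unit hx
  have h2 := Pool.Agent.Helper880_R3.Tot_unit hy
  obtain ⟨X', Y', hX'u, hY'u, hX', hY', h⟩ := hrat σ X Y h1.2 h2.2 hX hY
  have hu : IsUnit ((x * y⁻¹).map σ) := (h1.1.mul (inv_unit h2.1)).map (σ : ℂ →+* ℂ).mapMatrix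
  refine ⟨Tot ((x * y⁻¹).map σ) X', ⟨Tot_unit_of hu hX'u, _, X', rfl, hX'⟩, Tot 1 Y', ⟨Tot_unit_of isUnit_one hY'u, _, Y', rfl,
    hY'⟩, ?_⟩
  rw [Tot_inv hy, Tot_mul', Tot_map, Tot_inv (Tot_unit_of isUnit_one hY'u), Tot_mul', inv_one, mul_one]
  congr 1
  funext i
  exact h i

/-- the conclusion of the theorems -/
def Stab (D : ℕ) (H : Matrix (Fin n) (Fin n) ℚ) (C₀ : Matrix (Fin r₀) (Fin r₀) ℂ) (P : Fin N → Mn n ℂ) : Prop :=
  ∀ K : Subfield ℂ, FiniteDimensional ℚ K → finrank ℚ K ≤ D → ∀ S : Set (Matrix (Ix r₀ n N) (Ix r₀ n N) ℂ),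
    IsSubtorsor K S → RatGrp S → Tot C₀ P ∈ S → ∀ γ : Fin N → Mn n ℂ, (∀ j, γ j * cm H * (γ j)ᵀ = cm H) →
    ∀ x ∈ S, Tot 1 γ * x ∈ S

/-- a subtorsor for one block -/
theorem one_block {D : ℕ} {H : Matrix (Fin n) (Fin n) ℚ} {C₀ : Matrix (Fin r₀) (Fin r₀) ℂ} {P : Fin N → Mn n ℂ}
    (hC₀ : IsUnit C₀) (hP : ∀ j, IsUnit (P j)) (h : Stab D H C₀ P) (j : Fin N) {K : Subfield ℂ}
    (hK : FiniteDimensional ℚ K) (hD : finrank ℚ K ≤ D) {S : Set (Mn n ℂ)} (hS : IsSubtorsor K S) (hr : RatGrp S)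
    (hm : P j ∈ S) : ∀ γ : Mn n ℂ, γ * cm H * γᵀ = cm H → ∀ x ∈ S, γ * x ∈ S := by
  classical
  intro γ hγ x hx
  obtain ⟨I, hI, hI'⟩ := hS.algebraic
  set S' : Set (Fin N → Mn n ℂ) := {Y | Y j ∈ S} with hS'
  have htor : IsSubtorsor K (BT r₀ S') := by
    refine BT_tor (I := MvPolynomial.rename (fun p : Fin n × Fin n => (j, p.1, p.2)) '' I) ?_ (fun Y hY => ?_)
      fun X Y Z _ _ _ hX hY hZ => hS.torsor _ hX _ hY _ hZ
    · rintro _ ⟨p, hp, rfl⟩ m
      have hinj : Function.Injective (fun p : Fin n × Fin n => (j, p.1, p.2)) := by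
        rintro ⟨a, b⟩ ⟨a', b'⟩ h
        simp only [Prod.mk.injEq] at h
        rw [h.2.1, h.2.2]
      by_cases hm : ∃ m', m = Finsupp.mapDomain (fun p : Fin n × Fin n => (j, p.1, p.2)) m'
      · obtain ⟨m', rfl⟩ := hm
        rw [MvPolynomial.coeff_rename_mapDomain _ hinj]
        exact hI p hp m'
      · rw [MvPolynomial.coeff_rename_eq_zero]
        · exact K.zero_mem
        · intro u hu
          exact absurd ⟨u, hu.symm⟩ hm
    · show Y j ∈ S ↔ _
      rw [hI' (Y j)]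
      constructor
      · rintro ⟨-, h1⟩ _ ⟨p, hp, rfl⟩
        rw [MvPolynomial.eval_rename]
        exact h1 p hp
      · intro h1
        refine ⟨hY j, fun p hp => ?_⟩
        have h2 := h1 _ ⟨p, hp, rfl⟩
        rwa [MvPolynomial.eval_rename] at h2
  have hrat : RatGrp (BT (N := N) r₀ S') := by
    refine BT_rat fun σ X Y hX hY hXS hYS => ?_
    obtain ⟨x', hx', y', hy', hxy⟩ := hr σ _ hXS _ hYS
    refine ⟨fun i => if i = j then x' else (X i * (Y i)⁻¹).map σ, fun i => if i = j then y' else 1, fun i => ?_, fun i => ?_,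
      ?_, ?_, fun i => ?_⟩
    · show IsUnit (if i = j then x' else (X i * (Y i)⁻¹).map σ)
      split_ifs
      · exact hS.isUnit _ hx'
      · exact ((hX i).mul (inv_unit (hY i))).map (σ : ℂ →+* ℂ).mapMatrix
    · show IsUnit (if i = j then y' else 1)
      split_ifs
      · exact hS.isUnit _ hy'
      · exact isUnit_one
    · show (if j = j then x' else _) ∈ S
      rw [if_pos rfl]
      exact hx'
    · show (if j = j then y' else _) ∈ S
      rw [if_pos rfl]
      exact hy'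
    · show _ = (if i = j then x' else (X i * (Y i)⁻¹).map σ) * (if i = j then y' else 1)⁻¹
      by_cases hij : i = j
      · subst hij
        rw [if_pos rfl, if_pos rfl]
        exact hxy
      · rw [if_neg hij, if_neg hij, inv_one, mul_one]
  have h1 := h K hK hD _ htor hrat ⟨Tot_unit_of hC₀ hP, C₀, P, rfl, hm⟩ (fun i => if i = j then γ else 1) (fun i => by
    show (if i = j then γ else 1) * cm H * (if i = j then γ else 1)ᵀ = cm H
    split_ifs
    · exact hγ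
    · rw [Matrix.one_mul, Matrix.transpose_one, Matrix.mul_one])
    (Tot 1 fun i => if i = j then x else 1) ⟨Tot_unit_of isUnit_one fun i => by
      show IsUnit (if i = j then x else 1)
      split_ifs
      · exact hS.isUnit _ hx
      · exact isUnit_one, _, _, rfl, by
      show (if j = j then x else _) ∈ S
      rw [if_pos rfl]
      exact hx⟩
  rw [Tot_mul'] at h1
  obtain ⟨-, y, Y, hY, hYS⟩ := h1
  have h2 : Y j = γ * x := by
    ext a b
    have h3 := congrFun (congrFun hY (Sum.inr (a, j))) (Sum.inr (b, j))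
    rw [Tot_inr, Tot_inr, if_pos rfl, if_pos rfl, if_pos rfl, if_pos rfl] at h3
    exact h3.symm
  have h4 : Y j ∈ S := hYS
  rwa [h2] at h4

/-- **no special fibres** -/
theorem not_spc {D : ℕ} {H : Matrix (Fin (2 * g)) (Fin (2 * g)) ℚ} {C₀ : Matrix (Fin r₀) (Fin r₀) ℂ}
    {P : Fin N → Mn (2 * g) ℂ} (hC₀ : IsUnit C₀) (hP : ∀ j, IsUnit (P j)) (h : Stab D H C₀ P) (j : Fin N) :
    ¬ SpecialC D H (P j) := by
  rintro ⟨A, R, K, S, hK, hD, hspc⟩
  obtain ⟨γ, hγ, x, hx, hx'⟩ := hspc.not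
  refine hx' (one_block hC₀ hP h j hK hD hspc.tor hspc.rat hspc.mem γ ?_ x hx)
  exact hγ.2

/-- **no homomorphisms** -/
theorem no_hom {D : ℕ} {H : Matrix (Fin n) (Fin n) ℚ} (hH : Hᵀ = -H) (hd : IsUnit H.det)
    {C₀ : Matrix (Fin r₀) (Fin r₀) ℂ} {P : Fin N → Mn n ℂ} (hC₀ : IsUnit C₀) (hP : ∀ j, IsUnit (P j)) (h : Stab D H C₀ P)
    {i j : Fin N} (hij : i ≠ j) {K : Subfield ℂ} (hK : FiniteDimensional ℚ K) (hD : finrank ℚ K ≤ D)
    {α : Matrix (Fin n) (Fin n) ℚ} (ha : ∀ k l, ((P i)⁻¹ * cm α * P j) k l ∈ K) : α = 0 := by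
  classical
  have hPd : ∀ j, IsUnit (P j).det := fun j => (Matrix.isUnit_iff_isUnit_det _).1 (hP j)
  set a : Mn n ℂ := (P i)⁻¹ * cm α * P j with ha'
  have hPa : cm α * P j = P i * a := by
    rw [ha', ← Matrix.mul_assoc, ← Matrix.mul_assoc, Matrix.mul_nonsing_inv _ (hPd i), Matrix.one_mul]
  set S' : Set (Fin N → Mn n ℂ) := {Y | cm α * Y j = Y i * a} with hS'
  let f : Fin n → Fin n → MvPolynomial (Fin N × Fin n × Fin n) ℂ := fun k l =>
    ∑ m, MvPolynomial.C (cm α k m) * MvPolynomial.X (j, m, l) - ∑ m, MvPolynomial.C (a m l) * MvPolynomial.X (i, k, m)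
  have hinv : ∀ Y : Fin N → Mn n ℂ, (∀ i, IsUnit (Y i)) → Y ∈ S' → (Y i)⁻¹ * cm α = a * (Y j)⁻¹ := by
    intro Y hY hYS
    have h1 := (Matrix.isUnit_iff_isUnit_det _).1 (hY i)
    have h2 := (Matrix.isUnit_iff_isUnit_det _).1 (hY j)
    have h3 : cm α * Y j = Y i * a := hYS
    calc (Y i)⁻¹ * cm α = (Y i)⁻¹ * (cm α * Y j) * (Y j)⁻¹ := by
          rw [Matrix.mul_assoc, Matrix.mul_assoc, Matrix.mul_nonsing_inv _ h2, Matrix.mul_one]
      _ = _ := by rw [h3, ← Matrix.mul_assoc, Matrix.nonsing_inv_mul _ h1, Matrix.one_mul]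
  have htor : IsSubtorsor K (BT r₀ S') := by
    refine BT_tor (I := {p | ∃ k l, p = f k l}) ?_ (fun Y hY => ?_) fun X Y Z hX hY hZ hXS hYS hZS => ?_
    · rintro _ ⟨k, l, rfl⟩ m
      have hX : ∀ (q : Fin N × Fin n × Fin n), (MvPolynomial.X q : MvPolynomial (Fin N × Fin n × Fin n) ℂ).coeff m ∈ K := by
        intro q
        rw [MvPolynomial.coeff_X]
        split_ifs
        · exact K.one_mem
        · exact K.zero_mem
      show (∑ m, MvPolynomial.C (cm α k m) * MvPolynomial.X (j, m, l) -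
        ∑ m, MvPolynomial.C (a m l) * MvPolynomial.X (i, k, m) : MvPolynomial (Fin N × Fin n × Fin n) ℂ).coeff m ∈ K
      rw [MvPolynomial.coeff_sub, MvPolynomial.coeff_sum, MvPolynomial.coeff_sum]
      refine K.sub_mem (K.sum_mem fun m _ => ?_) (K.sum_mem fun m _ => ?_)
      · rw [MvPolynomial.coeff_C_mul, cm_apply]
        exact K.mul_mem (SubfieldClass.ratCast_mem K _) (hX _)
      · rw [MvPolynomial.coeff_C_mul]
        exact K.mul_mem (ha _ _) (hX _)
    · have h1 : ∀ k l, MvPolynomial.eval (fun q : Fin N × Fin n × Fin n => Y q.1 q.2.1 q.2.2) (f k l) =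
          (cm α * Y j) k l - (Y i * a) k l := by
        intro k l
        show MvPolynomial.eval (fun q : Fin N × Fin n × Fin n => Y q.1 q.2.1 q.2.2)
          (∑ m, MvPolynomial.C (cm α k m) * MvPolynomial.X (j, m, l) -
          ∑ m, MvPolynomial.C (a m l) * MvPolynomial.X (i, k, m)) = _
        rw [map_sub, map_sum, map_sum, Matrix.mul_apply, Matrix.mul_apply]
        simp only [map_mul, MvPolynomial.eval_C, MvPolynomial.eval_X]
        congr 1
        exact Finset.sum_congr rfl fun l _ => mul_comm _ _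
      constructor
      · rintro hYS _ ⟨k, l, rfl⟩
        have h2 : cm α * Y j = Y i * a := hYS
        rw [h1, h2, sub_self]
      · intro h2
        show cm α * Y j = Y i * a
        ext k l
        have h3 := h2 _ ⟨k, l, rfl⟩
        rw [h1] at h3
        exact sub_eq_zero.1 h3
    · have h1 : cm α * X j = X i * a := hXS
      have h2 : cm α * Z j = Z i * a := hZS
      show cm α * (X j * (Y j)⁻¹ * Z j) = X i * (Y i)⁻¹ * Z i * a
      calc cm α * (X j * (Y j)⁻¹ * Z j) = (cm α * X j) * (Y j)⁻¹ * Z j := by simp only [Matrix.mul_assoc]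
        _ = X i * (a * (Y j)⁻¹) * Z j := by rw [h1]; simp only [Matrix.mul_assoc]
        _ = X i * (Y i)⁻¹ * (cm α * Z j) := by rw [← hinv Y hY hYS]; simp only [Matrix.mul_assoc]
        _ = _ := by rw [h2]; simp only [Matrix.mul_assoc]
  have hrat : RatGrp (BT (N := N) r₀ S') := by
    refine BT_rat fun σ X Y hX hY hXS hYS => ?_
    refine ⟨fun i => (X i * (Y i)⁻¹).map σ * Y i, Y, fun i => ?_, hY, ?_, hYS, fun i => ?_⟩
    · exact (((hX i).mul (inv_unit (hY i))).map (σ : ℂ →+* ℂ).mapMatrix).mul (hY i)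
    · have h1 : cm α * (X j * (Y j)⁻¹) = (X i * (Y i)⁻¹) * cm α := by
        have h2 : cm α * X j = X i * a := hXS
        rw [← Matrix.mul_assoc, h2, Matrix.mul_assoc, ← hinv Y hY hYS, Matrix.mul_assoc]
      have h3 := congrArg (fun M : Mn n ℂ => M.map σ) h1
      simp only [map_inv_aut] at h3
      have h4 : (cm α).map σ = cm α := by
        ext k l
        rw [Matrix.map_apply, cm_apply, map_ratCast]
      rw [h4] at h3
      have h5 : cm α * Y j = Y i * a := hYS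
      show cm α * ((X j * (Y j)⁻¹).map σ * Y j) = (X i * (Y i)⁻¹).map σ * Y i * a
      rw [← Matrix.mul_assoc, map_inv_aut, h3, Matrix.mul_assoc, h5, ← Matrix.mul_assoc, map_inv_aut]
    · have h1 := (Matrix.isUnit_iff_isUnit_det _).1 (hY i)
      show _ = (X i * (Y i)⁻¹).map σ * Y i * (Y i)⁻¹
      rw [Matrix.mul_assoc, Matrix.mul_nonsing_inv _ h1, Matrix.mul_one]
  -- transvections in one block
  have hHt : (cm H)ᵀ = -cm H := by rw [← cm_transpose, hH, cm_neg]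
  have hHc := Pool.Agent.H936.G.cm_unit hd
  have hJ := Pool.Agent.H936.G.cm_skew' hH
  have hJd := Pool.Agent.H936.G.cm_unit' hd
  have key : ∀ γ : Mn n ℂ, γ * cm H * γᵀ = cm H → γ * (P i * a) = P i * a := by
    intro γ hγ
    have h1 := h K hK hD _ htor hrat ⟨Tot_unit_of hC₀ hP, C₀, P, rfl, hPa⟩ (fun l => if l = i then γ else 1) (fun l => by
      show (if l = i then γ else 1) * cm H * (if l = i then γ else 1)ᵀ = cm H
      split_ifs
      · exact hγ
      · rw [Matrix.one_mul, Matrix.transpose_one, Matrix.mul_one]) _ ⟨Tot_unit_of hC₀ hP, C₀, P, rfl, hPa⟩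
    rw [Tot_mul'] at h1
    obtain ⟨-, y, Y, hY, hYS⟩ := h1
    have hb : ∀ l, Y l = (if l = i then γ else 1) * P l := by
      intro l
      ext a' b'
      have h3 := congrFun (congrFun hY (Sum.inr (a', l))) (Sum.inr (b', l))
      rw [Tot_inr, Tot_inr, if_pos rfl, if_pos rfl] at h3
      exact h3.symm
    have h2 : cm α * Y j = Y i * a := hYS
    rw [hb, hb, if_neg (Ne.symm hij), if_pos rfl, Matrix.one_mul, hPa, Matrix.mul_assoc] at h2
    exact h2.symm
  have hzero : P i * a = 0 := by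
    apply Matrix.ext_of_mulVec_single
    intro l
    rw [zero_mulVec]
    set v := (P i * a) *ᵥ Pi.single l 1 with hv
    by_contra hv0
    obtain ⟨u, hu⟩ := Pool.Agent.H936.SL.exists_nonorth hJ hJd hv0
    obtain ⟨γ, hγ, hγv⟩ := Pool.Agent.H936.G.transv hHt hHc u
    have h1 := key γ hγ.2
    have h2 := congrArg (fun M : Mn n ℂ => M *ᵥ Pi.single l 1) h1
    simp only [← mulVec_mulVec, ← hv] at h2
    have h3 : (γ : Mn n ℂ) *ᵥ v = v := by
      have h6 : (γ : Mn n ℂ) *ᵥ v = ((γ : Mn n ℂ) * (P i * a)) *ᵥ Pi.single l 1 := by rw [hv, mulVec_mulVec]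
      rw [h6, h1]
    rw [hγv v, Pool.Agent.H936.SL.cm_inv hd] at h3
    have h4 : om (cm H⁻¹) u v • u = 0 := by
      have h5 := congrArg (fun w => w - v) h3
      simpa using h5
    rcases smul_eq_zero.1 h4 with h5 | h5
    · apply hu
      have h6 := Pool.Agent.Helper880_LF.om_swap hJ v u
      rw [h6, h5, neg_zero]
    · rw [h5] at hu
      exact hu (Pool.Agent.Helper880_LF.om_zero_right _)
  rw [← hPa] at hzero
  have h5 : cm α = 0 := by
    calc cm α = cm α * P j * (P j)⁻¹ := by rw [Matrix.mul_assoc, Matrix.mul_nonsing_inv _ (hPd j), Matrix.mul_one]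
      _ = 0 := by rw [hzero, Matrix.zero_mul]
  ext k l
  have h6 := congrFun (congrFun h5 k) l
  rw [cm_apply, Matrix.zero_apply] at h6
  rw [Matrix.zero_apply]
  exact_mod_cast h6

end Pool.Agent.H936.V
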