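import Pool.Agent.H936.G.Ult

/-!
# Sequences of forms: the projections in the ultrapower
-/

set_option autoImplicit false
set_option linter.unusedSectionVars false
set_option linter.unusedVariables false

open Matrix Module Filter

namespace Pool.Agent.H936.V

open Pool.Agent.Helper880_LF (om om_add_left om_add_right om_smul_left om_smul_right om_zero_left om_zero_right pr spS
  mem_spS comm_mem)
open Pool.Agent.Helper880_LF.NB (gm gm_mul gm_add gm_sub gm_smul gm_zero gm_one gm_ev gm_eq gm_surj gm_neg gm_unit gm_apply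
  gm_transpose gm_kt kt kt_apply dm dm_mul dm_smul Lst mem_Lst normL rank_le)
open Pool.Agent.Helper880_R3 (Ix ib ib_apply ib_inj ib_mul Tot GU mem_GU finrank_GU gm_fb gm_ib dm_fb)
open Pool.Agent.Y118.UL (mk mk_eq mk_eq_zero mk_ne_zero mk_surj ev_ge U)
open Pool.Agent.TH119.DR Pool.Agent.TH119.MX Pool.Agent.TH127.PT Pool.Agent.Y123.ST Pool.Agent.Y123.GN
open Pool.Agent.H936.SL (Mn GS Pj TN Lm gm_Tot tr_gm)

variable {n N r₀ : ℕ}

theorem gm_spS {J F : ℕ → Matrix (Fin n) (Fin n) ℂ} :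
    gm F ∈ spS (gm J) ↔ ∀ᶠ k in (hyperfilter ℕ : Filter ℕ), F k ∈ spS (J k) := by
  rw [mem_spS]
  have h1 : (gm F)ᵀ * gm J + gm J * gm F = gm fun k => (F k)ᵀ * J k + J k * F k := by
    rw [gm_add, gm_mul, gm_mul, gm_transpose]
  rw [h1, ← gm_zero, gm_ev]
  rfl

theorem gm_GS {J F : ℕ → Matrix (Fin n) (Fin n) ℂ} :
    GS (gm J) (gm F) ↔ ∀ᶠ k in (hyperfilter ℕ : Filter ℕ), GS (J k) (F k) := by
  classical
  constructor
  · rintro ⟨c, hc⟩
    obtain ⟨c, rfl⟩ := mk_surj c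
    rw [← gm_one, ← gm_smul, ← gm_add, gm_spS] at hc
    filter_upwards [hc] with k hk
    exact ⟨_, hk⟩
  · intro h
    have h1 : ∀ k, ∃ c : ℂ, GS (J k) (F k) → F k + c • (1 : Mn n ℂ) ∈ spS (J k) := by
      intro k
      by_cases hk : GS (J k) (F k)
      · obtain ⟨c, hc⟩ := hk
        exact ⟨c, fun _ => hc⟩
      · exact ⟨0, fun h => absurd h hk⟩
    choose c hc using h1
    refine ⟨mk ℂ c, ?_⟩
    rw [← gm_one, ← gm_smul, ← gm_add, gm_spS]
    filter_upwards [h] with k hk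
    exact hc k hk

/-- the projections in the ultrapower -/
theorem gm_Pj {J : ℕ → Matrix (Fin n) (Fin n) ℂ} {T : ℕ → Set (Matrix (Ix r₀ n N) (Ix r₀ n N) ℂ)} {j : Fin N}
    {X : ℕ → Matrix (Fin n) (Fin n) ℂ} : gm X ∈ Pj (gm J) (Lst fun k => LL (T k)) j ↔
      ∀ᶠ k in (hyperfilter ℕ : Filter ℕ), X k ∈ Pj (J k) (Lm (T k)) j := by
  classical
  constructor
  · rintro ⟨h0, e, y, c, h1, h2, h3⟩
    obtain ⟨e, rfl⟩ := gm_surj e
    obtain ⟨c, rfl⟩ := mk_surj c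
    choose y' hy' using fun i => gm_surj (y i)
    have hy : y = fun i => gm fun k => y' i k := funext fun i => (hy' i).symm
    subst hy
    have e1 : gm (fun k => Tot (e k) fun i => y' i k) = Tot (gm e) fun i => gm fun k => y' i k :=
      gm_Tot e fun k i => y' i k
    rw [← e1, mem_Lst] at h1
    have e2 : ∀ᶠ k in (hyperfilter ℕ : Filter ℕ), ∀ i, GS (J k) (y' i k) := Filter.eventually_all.2 fun i => gm_GS.1 (h2 i)
    have e3 : gm (fun k => y' j k) = gm fun k => X k + c k • (1 : Mn n ℂ) := by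
      rw [gm_add, gm_smul, gm_one]
      exact h3
    filter_upwards [gm_spS.1 h0, h1, e2, gm_eq e3] with k k0 k1 k2 k3
    exact ⟨k0, e k, fun i => y' i k, c k, k1, k2, k3⟩
  · intro h
    have h1 : ∀ k, ∃ (e : Matrix (Fin r₀) (Fin r₀) ℂ) (y : Fin N → Mn n ℂ) (c : ℂ), X k ∈ Pj (J k) (Lm (T k)) j →
        (Tot e y ∈ Lm (T k) ∧ (∀ i, GS (J k) (y i)) ∧ y j = X k + c • (1 : Mn n ℂ)) := by
      intro k
      by_cases hk : X k ∈ Pj (J k) (Lm (T k)) j
      · obtain ⟨-, e, y, c, k1, k2, k3⟩ := hk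
        exact ⟨e, y, c, fun _ => ⟨k1, k2, k3⟩⟩
      · exact ⟨0, fun _ => 0, 0, fun h => absurd h hk⟩
    choose e y c hh using h1
    refine ⟨gm_spS.2 (h.mono fun k hk => hk.1), gm e, fun i => gm fun k => y k i, mk ℂ c, ?_, fun i => ?_, ?_⟩
    · rw [← gm_Tot, mem_Lst]
      exact h.mono fun k hk => (hh k hk).1
    · exact gm_GS.2 (h.mono fun k hk => (hh k hk).2.1 i)
    · rw [← gm_one, ← gm_smul, ← gm_add, gm_ev]
      exact h.mono fun k hk => (hh k hk).2.2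

/-- nondegenerate trace forms -/
theorem TN_gm {J : ℕ → Matrix (Fin n) (Fin n) ℂ} {T : ℕ → Set (Matrix (Ix r₀ n N) (Ix r₀ n N) ℂ)} {j : Fin N}
    (h : ∀ k, TN (Pj (J k) (Lm (T k)) j)) : TN (Pj (gm J) (Lst fun k => LL (T k)) j) := by
  classical
  intro X hX htr
  obtain ⟨X, rfl⟩ := gm_surj X
  by_contra hne
  have h0 : ∀ᶠ k in (hyperfilter ℕ : Filter ℕ), X k ≠ 0 := by
    by_contra hcon
    rw [← Ultrafilter.eventually_not] at hcon
    apply hne
    rw [← gm_zero, gm_ev]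
    exact hcon.mono fun k hk => not_not.1 hk
  have h1 := gm_Pj.1 hX
  have h2 : ∀ k, ∃ Y, (X k ≠ 0 ∧ X k ∈ Pj (J k) (Lm (T k)) j) →
      (Y ∈ Pj (J k) (Lm (T k)) j ∧ Matrix.trace (X k * Y) ≠ 0) := by
    intro k
    by_cases hk : X k ≠ 0 ∧ X k ∈ Pj (J k) (Lm (T k)) j
    · have h3 := h k (X k) hk.2
      by_contra hcon
      push Not at hcon
      refine hk.1 (h3 fun Y hY => ?_)
      exact (hcon Y).2 hY
    · exact ⟨0, fun h => absurd h hk⟩
  choose Y hY using h2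
  have h3 := htr (gm Y) (gm_Pj.2 ((h0.and h1).mono fun k hk => (hY k hk).1))
  rw [← gm_mul, tr_gm, mk_eq_zero] at h3
  obtain ⟨k, hk1, hk2⟩ := ((h0.and h1).and h3).exists
  exact (hY k hk1).2 hk2

theorem ne_gm {J : ℕ → Matrix (Fin n) (Fin n) ℂ} {T : ℕ → Set (Matrix (Ix r₀ n N) (Ix r₀ n N) ℂ)} {j : Fin N}
    (h : ∀ k, Pj (J k) (Lm (T k)) j ≠ ⊥) : Pj (gm J) (Lst fun k => LL (T k)) j ≠ ⊥ := by
  choose X hX hX0 using fun k => Submodule.exists_mem_ne_zero_of_ne_bot (h k)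
  intro hcon
  have h1 : gm X ∈ Pj (gm J) (Lst fun k => LL (T k)) j := gm_Pj.2 (Filter.Eventually.of_forall hX)
  rw [hcon, Submodule.mem_bot, ← gm_zero] at h1
  obtain ⟨k, hk⟩ := (gm_eq h1).exists
  exact hX0 k hk

theorem gm_skew {J : ℕ → Matrix (Fin n) (Fin n) ℂ} (hJ : ∀ k, (J k)ᵀ = -J k) : (gm J)ᵀ = -gm J := by
  rw [← gm_transpose, ← gm_neg]
  congr 1
  funext k
  exact hJ k

end Pool.Agent.H936.V
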