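import Pool.Agent.H936.V.Cst

/-!
# Sequences of special fibres
-/

set_option autoImplicit false
set_option linter.unusedSectionVars false
set_option linter.unusedVariables false

open Matrix Module Filter

namespace Pool.Agent.H936.V

open Pool.Agent.Helper880_LF (om pr spS mem_spS comm_mem)
open Pool.Agent.Helper880_LF.NB (gm gm_mul gm_add gm_sub gm_smul gm_zero gm_one gm_ev gm_eq gm_surj gm_neg gm_unit gm_apply
  gm_transpose gm_kt kt kt_apply dm dm_mul dm_smul dm_transpose Lst mem_Lst normL rank_le kerD mem_kerD ker_alg)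
open Pool.Agent.Helper880_R3 (Ix ib Tot)
open Pool.Agent.Y118.UL (mk mk_eq mk_eq_zero mk_ne_zero mk_surj rep U)
open Pool.Agent.Y119.HY (cm cm_apply cm_mul cm_one cm_transpose cm_zero cm_add cm_neg cm_pow)
open Pool.Agent.Y123.ST (fl um LL LL_def fl_um um_fl)
open Pool.Agent.TH127.PT (IsSubtorsor)
open Pool.Agent.Y102 (AbVar QBar tau toC toC_eq)
open Pool.Agent.H936.SL (Mn GS Pj TN Lm RatGrp Pres LL_br bt bt_surj ns_bt finrank_spS_ge tr_gm)
open Pool.Agent.H936.G (DD dm_addD dm_smulD ld ld_apply cjg cjg_apply Xd nrmS mem_nrmS nrmS_dim thmE cm_unit cm_unit' cm_skew'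
  upS mem_upS upS_dim Spc RLie L0 L0_rlie)
open Pool.Agent.H885 (GUs mem_GUs)

variable {n N r₀ m g : ℕ}

/-- nondegenerate trace forms of sequences of subspaces -/
theorem TN_GUs {𝔩 : ℕ → Submodule ℂ (Mn n ℂ)} (h : ∀ k, TN (𝔩 k)) : TN (GUs 𝔩) := by
  classical
  intro X hX htr
  obtain ⟨X, rfl⟩ := gm_surj X
  by_contra hne
  have h0 : ∀ᶠ k in (hyperfilter ℕ : Filter ℕ), X k ≠ 0 := by
    by_contra hcon
    rw [← Ultrafilter.eventually_not] at hcon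
    apply hne
    rw [← gm_zero, gm_ev]
    exact hcon.mono fun k hk => not_not.1 hk
  have h1 := mem_GUs.1 hX
  have h2 : ∀ k, ∃ Y, (X k ≠ 0 ∧ X k ∈ 𝔩 k) → (Y ∈ 𝔩 k ∧ Matrix.trace (X k * Y) ≠ 0) := by
    intro k
    by_cases hk : X k ≠ 0 ∧ X k ∈ 𝔩 k
    · have h3 := h k (X k) hk.2
      by_contra hcon
      push Not at hcon
      refine hk.1 (h3 fun Y hY => ?_)
      exact (hcon Y).2 hY
    · exact ⟨0, fun h => absurd h hk⟩
  choose Y hY using h2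
  have h3 := htr (gm Y) (mem_GUs.2 ((h0.and h1).mono fun k hk => (hY k hk).1))
  rw [← gm_mul, tr_gm, mk_eq_zero] at h3
  obtain ⟨k, hk1, hk2⟩ := ((h0.and h1).and h3).exists
  exact (hY k hk1).2 hk2

/-- the elements of the Lie algebra of a subtorsor, for sequences -/
theorem nrm_L0 {D : ℕ} {H : ℕ → Matrix (Fin n) (Fin n) ℚ} {C : ℕ → Mn n ℂ} {θ : ℂ} (hc : Cen D H C θ)
    {K : ℕ → Subfield ℂ} {d : ℕ} (hK : ∀ k, FiniteDimensional ℚ (K k)) (hD : ∀ k, finrank ℚ (K k) ≤ d)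
    {S : ℕ → Set (Mn n ℂ)} (hS : ∀ k, IsSubtorsor (K k) (S k)) (hm : ∀ k, C k ∈ S k) (δ : DD) :
    ∃ c : U ℂ, ld C δ + c • (1 : Mn n (U ℂ)) ∈ nrmS (gm (JJ H)) (GUs fun k => L0 (JJ H k) (S k)) := by
  obtain ⟨c, hcc⟩ := hc.gs δ
  refine ⟨c, hcc, fun Y hY => ?_⟩
  obtain ⟨F, hF⟩ := gm_surj (ld C δ)
  obtain ⟨F', rfl, hF'⟩ := hY
  -- the scalars
  have h1 : ∀ k, ∃ a : ℂ, F' k + a • (1 : Mn n ℂ) ∈ Lm (S k) := fun k => (hF' k).2
  choose a ha using h1
  have h2 : gm (fun k => F' k + a k • (1 : Mn n ℂ)) ∈ Lst fun k => LL (S k) :=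
    mem_Lst.2 (Filter.Eventually.of_forall ha)
  have h3 := normL hK hD hS hm δ h2
  have h4 : dm δ (gm C) * (gm C)⁻¹ = gm F := hF.symm
  rw [h4, ← gm_mul, ← gm_mul, ← gm_sub, mem_Lst] at h3
  rw [← hF] at hcc ⊢
  have h5 : (gm F + c • (1 : Mn n (U ℂ))) * gm F' - gm F' * (gm F + c • (1 : Mn n (U ℂ))) =
      gm fun k => F k * F' k - F' k * F k := by
    rw [Matrix.add_mul, Matrix.mul_add, Matrix.smul_mul, Matrix.mul_smul, Matrix.one_mul, Matrix.mul_one,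
      add_sub_add_right_eq_sub, ← gm_mul, ← gm_mul, ← gm_sub]
  have h6 : gm F' ∈ spS (gm (JJ H)) := gm_spS.2 (Filter.Eventually.of_forall fun k => (hF' k).1)
  have h7 := comm_mem (gm_skew (JJ_skew hc.skew)) hcc h6
  rw [h5] at h7 ⊢
  rw [gm_spS] at h7
  rw [mem_GUs]
  filter_upwards [h3, h7] with k k1 k2
  refine ⟨k2, 0, ?_⟩
  rw [zero_smul, add_zero]
  have e1 : F k * (F' k + a k • (1 : Mn n ℂ)) - (F' k + a k • (1 : Mn n ℂ)) * F k = F k * F' k - F' k * F k := by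
    rw [Matrix.mul_add, Matrix.add_mul, Matrix.smul_mul, Matrix.mul_smul, Matrix.one_mul, Matrix.mul_one,
      add_sub_add_right_eq_sub]
  rw [← e1]
  exact k1

/-- **the data of the first core theorem for a sequence of special fibres** -/
theorem spc_data (hg : 2 ≤ g) {D : ℕ} {H : ℕ → Matrix (Fin (2 * g)) (Fin (2 * g)) ℚ} {C : ℕ → Mn (2 * g) ℂ} {θ : ℂ}
    (hc : Cen D H C θ) {A : ℕ → AbVar g} {R : ℕ → Matrix (Fin (2 * g)) (Fin (2 * g)) ℚ}
    {K : ℕ → Subfield ℂ} {d : ℕ} (hK : ∀ k, FiniteDimensional ℚ (K k)) (hD : ∀ k, finrank ℚ (K k) ≤ d)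
    {S : ℕ → Set (Mn (2 * g) ℂ)} (hS : ∀ k, Spc (A k) (H k) (C k) (R k) (K k) (S k)) :
    ∃ 𝔉 : Submodule (U ℂ) (Mn (2 * g) (U ℂ)), 𝔉 ≤ spS (gm (JJ H)) ∧
      (∀ δ : DD, ∃ c : U ℂ, ld C δ + c • (1 : Mn (2 * g) (U ℂ)) ∈ 𝔉) ∧
      (∀ 𝔩 : Submodule (U ℂ) (Mn (2 * g) (U ℂ)), 𝔩 ≤ spS (gm (JJ H)) → TN 𝔩 → (∀ X ∈ spS (gm (JJ H)), ∃ Z B, X = Z + B ∧
        Z ∈ spS (gm (JJ H)) ∧ B ∈ 𝔉 ∧ ∀ Y ∈ 𝔩, Z * Y - Y * Z ∈ 𝔩) → 𝔩 = ⊥ ∨ 𝔩 = spS (gm (JJ H))) ∧
      finrank (U ℂ) 𝔉 + (2 * g - 1) ≤ finrank (U ℂ) (spS (gm (JJ H))) := by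
  have hJ : (gm (JJ H))ᵀ = -gm (JJ H) := gm_skew (JJ_skew hc.skew)
  have hJd : IsUnit (gm (JJ H)).det := gm_unit (JJ_det hc.hd)
  have hrl : ∀ k, RLie (A k) (H k) (R k) (L0 (JJ H k) (S k)) := fun k =>
    L0_rlie (hS k).alg (hS k).tor (hS k).rat (hS k).mem (hS k).pres (hc.skew k) (hc.hd k)
  have htop : ∀ k, L0 (JJ H k) (S k) ≠ spS (JJ H k) := fun k => (hS k).ne_top (by omega) (hc.skew k) (hc.hd k)
  set 𝔩₀ := GUs fun k => L0 (JJ H k) (S k) with h𝔩₀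
  have hle : 𝔩₀ ≤ spS (gm (JJ H)) := by
    rintro _ ⟨F, rfl, hF⟩
    exact gm_spS.2 (Filter.Eventually.of_forall fun k => (hF k).1)
  have hTN : TN 𝔩₀ := TN_GUs fun k => (hrl k).tn (hc.hd k) (hS k).pres
  have hne : 𝔩₀ ≠ ⊥ := by
    choose X hX hX0 using fun k => Submodule.exists_mem_ne_zero_of_ne_bot ((hrl k).ne (hS k).pres (by omega))
    intro hcon
    have h1 : gm X ∈ 𝔩₀ := mem_GUs.2 (Filter.Eventually.of_forall hX)
    rw [hcon, Submodule.mem_bot, ← gm_zero] at h1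
    obtain ⟨k, hk⟩ := (gm_eq h1).exists
    exact hX0 k hk
  have hnt : 𝔩₀ ≠ spS (gm (JJ H)) := by
    intro hcon
    have h1 : ∀ k, ∃ X ∈ spS (JJ H k), X ∉ L0 (JJ H k) (S k) := by
      intro k
      by_contra hcon'
      push Not at hcon'
      exact htop k (le_antisymm (hrl k).le hcon')
    choose X hX hX' using h1
    have h2 : gm X ∈ 𝔩₀ := by
      rw [hcon]
      exact gm_spS.2 (Filter.Eventually.of_forall hX)
    obtain ⟨k, hk⟩ := (mem_GUs.1 h2).exists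
    exact hX' k hk
  refine ⟨nrmS (gm (JJ H)) 𝔩₀, fun X hX => hX.1, fun δ => nrm_L0 hc hK hD (fun k => (hS k).tor) (fun k => (hS k).mem) δ,
    fun 𝔩 hl1 hl2 hl3 => ?_, nrmS_dim hJ hJd (by omega) hle hne hnt⟩
  rcases thmE hJ hJd (by omega) hl2 hl1 hTN hle (fun X hX => by
    obtain ⟨Z, B, e, h1, h2, h3⟩ := hl3 X hX
    exact ⟨Z, B, e, h1, h2.1, h3, h2.2⟩) with h1 | (h1 | h1)
  · exact h1
  · exact absurd h1 hne
  · exact absurd h1 hnt

/-! ### endomorphisms -/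

theorem SE_torK {K : Subfield ℂ} {α a : Mn n ℂ} (hα : ∀ i j, α i j ∈ K) (ha : ∀ i j, a i j ∈ K) :
    IsSubtorsor K (Pool.Agent.H936.G.SE α a) where
  isUnit x hx := hx.1
  torsor x hx y hy z hz := by
    refine ⟨(hx.1.mul (Pool.Agent.H936.G.isUnit_inv hy.1)).mul hz.1, ?_⟩
    calc α * (x * y⁻¹ * z) = (α * x) * y⁻¹ * z := by simp only [Matrix.mul_assoc]
      _ = x * (a * y⁻¹) * z := by rw [hx.2]; simp only [Matrix.mul_assoc]
      _ = x * y⁻¹ * (α * z) := by rw [← Pool.Agent.H936.G.SE_inv hy]; simp only [Matrix.mul_assoc]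
      _ = _ := by rw [hz.2]; simp only [Matrix.mul_assoc]
  algebraic := by
    classical
    let f : Fin n → Fin n → MvPolynomial (Fin n × Fin n) ℂ := fun i j =>
      ∑ l, MvPolynomial.C (α i l) * MvPolynomial.X (l, j) - ∑ l, MvPolynomial.C (a l j) * MvPolynomial.X (i, l)
    refine ⟨{p | ∃ i j, p = f i j}, ?_, fun x => ?_⟩
    · rintro _ ⟨i, j, rfl⟩ m
      have hX : ∀ (q : Fin n × Fin n), (MvPolynomial.X q : MvPolynomial (Fin n × Fin n) ℂ).coeff m ∈ K := by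
        intro q
        rw [MvPolynomial.coeff_X']
        split_ifs
        · exact K.one_mem
        · exact K.zero_mem
      show (∑ l, MvPolynomial.C (α i l) * MvPolynomial.X (l, j) -
        ∑ l, MvPolynomial.C (a l j) * MvPolynomial.X (i, l) : MvPolynomial (Fin n × Fin n) ℂ).coeff m ∈ K
      rw [MvPolynomial.coeff_sub, MvPolynomial.coeff_sum, MvPolynomial.coeff_sum]
      refine K.sub_mem (K.sum_mem fun l _ => ?_) (K.sum_mem fun l _ => ?_)
      · rw [MvPolynomial.coeff_C_mul]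
        exact K.mul_mem (hα i l) (hX _)
      · rw [MvPolynomial.coeff_C_mul]
        exact K.mul_mem (ha l j) (hX _)
    · have h1 : ∀ i j, MvPolynomial.eval (fun b : Fin n × Fin n => x b.1 b.2) (f i j) = (α * x) i j - (x * a) i j := by
        intro i j
        show MvPolynomial.eval (fun b : Fin n × Fin n => x b.1 b.2) (∑ l, MvPolynomial.C (α i l) * MvPolynomial.X (l, j) -
          ∑ l, MvPolynomial.C (a l j) * MvPolynomial.X (i, l)) = _
        rw [map_sub, map_sum, map_sum, Matrix.mul_apply, Matrix.mul_apply]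
        simp only [map_mul, MvPolynomial.eval_C, MvPolynomial.eval_X]
        congr 1
        exact Finset.sum_congr rfl fun l _ => mul_comm _ _
      refine and_congr_right fun _ => ⟨?_, fun h => ?_⟩
      · rintro h _ ⟨i, j, rfl⟩
        rw [h1, h, sub_self]
      · ext i j
        have h2 := h _ ⟨i, j, rfl⟩
        rw [h1] at h2
        exact sub_eq_zero.1 h2

/-- **a matrix which commutes with the Hodge structure gives a special fibre** -/
theorem spc_of_mat (hg : 0 < g) {A : AbVar g} {H R : Matrix (Fin (2 * g)) (Fin (2 * g)) ℚ} {C : Mn (2 * g) ℂ}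
    (hp : Pres A H C R) (hH : Hᵀ = -H) (hd : IsUnit H.det) (hC : IsUnit C.det) {K : Subfield ℂ}
    (hK : ∀ x ∈ K, IsAlgebraic ℚ x) {α : Matrix (Fin (2 * g)) (Fin (2 * g)) ℚ} (hα : ∀ c : ℚ, α ≠ c • 1)
    (ha : ∀ i j, (C⁻¹ * cm α * C) i j ∈ K) :
    ∃ S : Set (Mn (2 * g) ℂ), Spc A H C R K S := by
  have hR : IsUnit R.det := by
    obtain ⟨T, T', q, hR, -⟩ := hp
    exact hR
  obtain ⟨X₀, hX₀⟩ := bt_surj hR α
  set a := C⁻¹ * cm α * C with ha'
  have hCa : bt R X₀ * C = C * a := by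
    rw [hX₀, ha', ← Matrix.mul_assoc, ← Matrix.mul_assoc, Matrix.mul_nonsing_inv _ hC, Matrix.one_mul]
  have hns : ∀ c : ℚ, X₀ ≠ c • (1 : Module.End ℚ A.H1) := by
    intro c hc
    apply hα c
    have h1 : bt R X₀ = cm (c • 1) := by
      rw [hc]
      have h2 := Pool.Agent.H936.SL.bt_smul (R := R) c (1 : Module.End ℚ (Fin (2 * g) → ℚ))
      refine h2.trans ?_
      rw [Pool.Agent.H936.SL.bt_one hR]
      ext i j
      rw [cm_apply, Matrix.smul_apply, Matrix.smul_apply, Matrix.one_apply, Matrix.one_apply]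
      split_ifs <;> simp
    rw [hX₀] at h1
    ext i j
    have h2 := congrFun (congrFun h1 i) j
    rw [cm_apply, cm_apply] at h2
    exact_mod_cast h2
  have hHt : (cm H)ᵀ = -cm H := by rw [← cm_transpose, hH, cm_neg]
  have hHc := cm_unit hd
  have hmem : C ∈ Pool.Agent.H936.G.SE (bt R X₀) a := ⟨(Matrix.isUnit_iff_isUnit_det _).2 hC, hCa⟩
  refine ⟨Pool.Agent.H936.G.SE (bt R X₀) a, hK, SE_torK (fun i j => ?_) ha, Pool.Agent.H936.G.SE_rat X₀ a, hmem, hp, ?_⟩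
  · rw [hX₀, cm_apply]
    exact SubfieldClass.ratCast_mem K _
  by_contra hcon
  push Not at hcon
  -- the operator commutes with all transvections
  have hJ := cm_skew' hH
  have hJd := cm_unit' hd
  have h1 : ∀ u, bt R X₀ *ᵥ u ∈ Submodule.span ℂ {u} := by
    intro u
    by_cases hu : u = 0
    · rw [hu, mulVec_zero]
      exact Submodule.zero_mem _
    obtain ⟨γ, hγ, hγv⟩ := Pool.Agent.H936.G.transv hHt hHc u
    have h2 := (hcon γ hγ C hmem).2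
    have h3 : bt R X₀ * (γ : Mn (2 * g) ℂ) = γ * bt R X₀ := by
      calc bt R X₀ * (γ : Mn (2 * g) ℂ) = (bt R X₀ * (γ * C)) * C⁻¹ := by
            rw [Matrix.mul_assoc, Matrix.mul_assoc, Matrix.mul_nonsing_inv _ hC, Matrix.mul_one]
        _ = γ * (C * a) * C⁻¹ := by rw [h2, Matrix.mul_assoc (γ : Mn (2 * g) ℂ)]
        _ = γ * bt R X₀ * (C * C⁻¹) := by
          rw [← hCa]
          simp only [Matrix.mul_assoc]
        _ = _ := by rw [Matrix.mul_nonsing_inv _ hC, Matrix.mul_one]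
    rw [Pool.Agent.H936.SL.cm_inv hd] at hγv
    obtain ⟨w, hw⟩ := Pool.Agent.H936.SL.exists_nonorth hJ hJd hu
    have h4 := congrArg (fun Y : Mn (2 * g) ℂ => Y *ᵥ w) h3
    simp only [← mulVec_mulVec, hγv, mulVec_add, mulVec_smul] at h4
    have h5 := add_left_cancel h4
    rw [Submodule.mem_span_singleton]
    refine ⟨(om (cm H⁻¹) u w)⁻¹ * om (cm H⁻¹) u (bt R X₀ *ᵥ w), ?_⟩
    rw [mul_smul, ← h5, smul_smul, inv_mul_cancel₀ hw, one_smul]
  obtain ⟨w, hw⟩ := ns_bt (by omega) hJ hJd hR hns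
  exact hw (h1 w)

end Pool.Agent.H936.V
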