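import Pool.Agent.H936.V.Seq
import Pool.Agent.H936.V.Core

/-!
# The core theorems in the ultrapower; the forms, the central periods and the additional periods are sequences
-/

set_option autoImplicit false
set_option linter.unusedSectionVars false
set_option linter.unusedVariables false

open Matrix Module Filter

namespace Pool.Agent.H936.V

open Pool.Agent.Helper880_LF (om om_add_left om_add_right om_smul_left om_smul_right om_zero_left om_zero_right pr spS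
  mem_spS comm_mem)
open Pool.Agent.Helper880_LF.NB (gm gm_mul gm_add gm_sub gm_smul gm_zero gm_one gm_ev gm_eq gm_surj gm_neg gm_unit gm_apply
  gm_transpose gm_kt kt kt_apply dm dm_mul dm_smul Lst mem_Lst normL rank_le)
open Pool.Agent.Helper880_R3 (Ix ib ib_apply ib_inj ib_mul Tot GU mem_GU finrank_GU gm_fb gm_ib dm_fb)
open Pool.Agent.Y118.UL (mk mk_eq mk_eq_zero mk_ne_zero mk_surj ev_ge U)
open Pool.Agent.Y123.ST (fl um LL fl_um um_fl)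
open Pool.Agent.TH127.PT (IsSubtorsor)
open Pool.Agent.H936.SL (Mn GS Pj TN Lm gm_Tot tr_gm dm_Tot Lst_br Tot_mul')
open Pool.Agent.H936.G (DD dm_addD dm_smulD ld ld_apply cjg cjg_apply Xd Dr Nm Tot_inv2 ld_mul)

variable {n N r₀ m : ℕ}

/-- the derivations which move the points in the symplectic directions -/
noncomputable def Ds (J Cs : ℕ → Mn n ℂ) (z : ℕ → Fin N → Mn n ℂ) : Submodule (U ℂ) DD where
  carrier := {δ | ∀ i, Xd Cs z i δ ∈ spS (gm J)}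
  zero_mem' i := by rw [map_zero]; exact Submodule.zero_mem _
  add_mem' ha hb i := by rw [map_add]; exact Submodule.add_mem _ (ha i) (hb i)
  smul_mem' c a ha i := by rw [map_smul]; exact Submodule.smul_mem _ c (ha i)

/-- the data of a sequence -/
structure Sq (J Cs : ℕ → Mn n ℂ) (z : ℕ → Fin N → Mn n ℂ) : Prop where
  skew : ∀ k, (J k)ᵀ = -J k
  det : ∀ k, (J k).det ≠ 0
  gs : ∀ δ, GS (gm J) (ld Cs δ)
  surj : ∀ i, ∀ Y ∈ spS (gm J), ∃ δ : DD, Xd Cs z i δ = Y ∧ ∀ j, j ≠ i → Xd Cs z j δ = 0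
  cu : ∀ k, (Cs k).det ≠ 0
  zu : ∀ k j, (z k j).det ≠ 0

/-- the derivations of the ultrapower -/
noncomputable def Sq.D {J Cs : ℕ → Mn n ℂ} {z : ℕ → Fin N → Mn n ℂ} (h : Sq J Cs z)
    (C₀ : ℕ → Matrix (Fin r₀) (Fin r₀) ℂ) : Dr (gm J) r₀ N (Ds J Cs z) where
  X i := Xd Cs z i ∘ₗ (Ds J Cs z).subtype
  Fc := ld Cs ∘ₗ (Ds J Cs z).subtype
  F₀ := ld C₀ ∘ₗ (Ds J Cs z).subtype
  mem i d := d.2 i
  gs d := h.gs d
  surj i Y hY := by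
    obtain ⟨δ, h1, h2⟩ := h.surj i Y hY
    refine ⟨⟨δ, fun j => ?_⟩, h1, h2⟩
    by_cases hj : j = i
    · subst hj
      rw [h1]
      exact hY
    · rw [h2 j hj]
      exact Submodule.zero_mem _

theorem ld_Tot {C₀ : ℕ → Matrix (Fin r₀) (Fin r₀) ℂ} (hC₀ : ∀ k, (C₀ k).det ≠ 0) {y : ℕ → Fin m → Mn n ℂ}
    (hy : ∀ k j, (y k j).det ≠ 0) (δ : DD) :
    ld (fun k => Tot (C₀ k) (y k)) δ = Tot (ld C₀ δ) fun j => ld (fun k => y k j) δ := by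
  have h1 : gm (fun k => Tot (C₀ k) (y k)) = Tot (gm C₀) fun j => gm fun k => y k j := gm_Tot C₀ y
  rw [ld_apply, h1, dm_Tot, Tot_inv2 (gm_unit hC₀) fun j => gm_unit fun k => hy k j, Tot_mul']
  rfl

/-- **the Lie algebra of a sequence of torsors** -/
theorem Sq.nm {J Cs : ℕ → Mn n ℂ} {z : ℕ → Fin N → Mn n ℂ} (h : Sq J Cs z)
    {C₀ : ℕ → Matrix (Fin r₀) (Fin r₀) ℂ} (hC₀ : ∀ k, (C₀ k).det ≠ 0) {e : Fin m → Fin N} (he : Function.Injective e)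
    {K : ℕ → Subfield ℂ} {d : ℕ} (hK : ∀ k, FiniteDimensional ℚ (K k)) (hD : ∀ k, finrank ℚ (K k) ≤ d)
    {T : ℕ → Set (Matrix (Ix r₀ n m) (Ix r₀ n m) ℂ)} (hT : ∀ k, IsSubtorsor (K k) (T k))
    (hcT : ∀ k, Tot (C₀ k) (fun j => Cs k * z k (e j)) ∈ T k)
    (hTN : ∀ k j, TN (Pj (J k) (Lm (T k)) j)) (hne : ∀ k j, Pj (J k) (Lm (T k)) j ≠ ⊥) :
    Nm (h.D C₀) e (Lst fun k => LL (T k)) where
  inj := he
  br := Lst_br hT fun k => ⟨_, hcT k⟩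
  nrm d w hw := by
    have h3 := normL hK hD hT hcT (d : DD) hw
    have h4 : dm (d : DD) (gm fun k => Tot (C₀ k) fun j => Cs k * z k (e j)) *
        (gm fun k => Tot (C₀ k) fun j => Cs k * z k (e j))⁻¹ =
        Tot ((h.D C₀).F₀ d) (fun j => (h.D C₀).Fc d + (h.D C₀).X (e j) d) := by
      have h5 := ld_Tot (C₀ := C₀) hC₀ (y := fun k j => Cs k * z k (e j)) (fun k j => by
        rw [Matrix.det_mul]
        exact mul_ne_zero (h.cu k) (h.zu k _)) (d : DD)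
      refine h5.trans ?_
      congr 1
      funext j
      exact ld_mul h.cu (fun k => h.zu k (e j)) _
    rw [h4] at h3
    exact h3
  tn j := TN_gm fun k => hTN k j
  ne j := ne_gm fun k => hne k j

/-- back to the components -/
theorem back {J : ℕ → Mn n ℂ} {T : ℕ → Set (Matrix (Ix r₀ n N) (Ix r₀ n N) ℂ)}
    (h : ∀ i, ∀ Y ∈ spS (gm J), ib (r₀ := r₀) i Y ∈ Lst fun k => LL (T k)) :
    ∀ᶠ k in (hyperfilter ℕ : Filter ℕ), ∀ i, ∀ X ∈ spS (J k), ib (r₀ := r₀) i X ∈ Lm (T k) := by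
  classical
  rw [Filter.eventually_all]
  intro i
  by_contra hcon
  rw [← Ultrafilter.eventually_not] at hcon
  have h1 : ∀ k, ∃ X ∈ spS (J k), (¬ ∀ X ∈ spS (J k), ib (r₀ := r₀) i X ∈ Lm (T k)) → ib (r₀ := r₀) i X ∉ Lm (T k) := by
    intro k
    by_cases hk : ∀ X ∈ spS (J k), ib (r₀ := r₀) i X ∈ Lm (T k)
    · exact ⟨0, (spS (J k)).zero_mem, fun h => absurd hk h⟩
    · have hk' := hk
      push Not at hk'
      obtain ⟨Y, h1, h2⟩ := hk'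
      exact ⟨Y, h1, fun _ => h2⟩
  choose X hX1 hX2 using h1
  have h3 : ib i (gm X) ∈ Lst fun k => LL (T k) := h i _ (gm_spS.2 (Filter.Eventually.of_forall hX1))
  rw [← gm_ib] at h3
  have h5 := mem_Lst.1 h3
  obtain ⟨k, hk1, hk2⟩ := (h5.and hcon).exists
  exact hX2 k hk2 hk1

/-- the condition on the number of the constants -/
def FewG (b : ℕ) (Cs : ℕ → Mn n ℂ) {ι : Type} (C₀ : ι → ℕ → Matrix (Fin r₀) (Fin r₀) ℂ) : Prop :=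
  ∃ (V : Type) (_ : AddCommGroup V) (_ : Module (U ℂ) V) (_ : FiniteDimensional (U ℂ) V) (Φ : DD →ₗ[U ℂ] V),
    finrank (U ℂ) V < b ∧ ∀ x δ, Φ δ = 0 → ∃ z : U ℂ, ld (C₀ x) δ = z • 1 ∧ ld Cs δ = z • 1

/-- **The first core theorem** -/
theorem Sq.core1 {J Cs : ℕ → Mn n ℂ} {z : ℕ → Fin N → Mn n ℂ} (h : Sq J Cs z)
    {C₀ : ℕ → Matrix (Fin r₀) (Fin r₀) ℂ} (hC₀ : ∀ k, (C₀ k).det ≠ 0) {e : Fin m → Fin N} (he : Function.Injective e)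
    {K : ℕ → Subfield ℂ} {d : ℕ} (hK : ∀ k, FiniteDimensional ℚ (K k)) (hD : ∀ k, finrank ℚ (K k) ≤ d)
    {T : ℕ → Set (Matrix (Ix r₀ n m) (Ix r₀ n m) ℂ)} (hT : ∀ k, IsSubtorsor (K k) (T k))
    (hcT : ∀ k, Tot (C₀ k) (fun j => Cs k * z k (e j)) ∈ T k)
    (hTN : ∀ k j, TN (Pj (J k) (Lm (T k)) j)) (hne : ∀ k j, Pj (J k) (Lm (T k)) j ≠ ⊥)
    {𝔉 : Submodule (U ℂ) (Mn n (U ℂ))} (h𝔉 : 𝔉 ≤ spS (gm J))
    (hF : ∀ δ : DD, ∃ c : U ℂ, ld Cs δ + c • (1 : Mn n (U ℂ)) ∈ 𝔉)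
    (good : ∀ 𝔩 : Submodule (U ℂ) (Mn n (U ℂ)), 𝔩 ≤ spS (gm J) → TN 𝔩 → (∀ X ∈ spS (gm J), ∃ Z B, X = Z + B ∧
      Z ∈ spS (gm J) ∧ B ∈ 𝔉 ∧ ∀ Y ∈ 𝔩, Z * Y - Y * Z ∈ 𝔩) → 𝔩 = ⊥ ∨ 𝔩 = spS (gm J))
    (hfew : FewG (finrank (U ℂ) (spS (gm J))) Cs fun _ : Unit => C₀) :
    ∀ᶠ k in (hyperfilter ℕ : Filter ℕ), ∀ i, ∀ X ∈ spS (J k), ib (r₀ := r₀) i X ∈ Lm (T k) := by
  have hn := h.nm hC₀ he hK hD hT hcT hTN hne
  obtain ⟨V, _, _, _, Φ, hV, hΦ⟩ := hfew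
  exact back fun i => hn.core1 (gm_skew h.skew) (gm_unit h.det) h𝔉 (fun d => hF d) good (Φ ∘ₗ (Ds J Cs z).subtype) hV
    (fun d hd => hΦ () d hd) i

/-- **The second core theorem** -/
theorem Sq.core2 (hn : 3 ≤ n) {J Cs : ℕ → Mn n ℂ} {z : ℕ → Fin N → Mn n ℂ} (h : Sq J Cs z) {ι : Type} (x₀ : ι)
    {C₀ : ι → ℕ → Matrix (Fin r₀) (Fin r₀) ℂ} (hC₀ : ∀ x k, (C₀ x k).det ≠ 0)
    {e : ι → Fin m → Fin N} (he : ∀ x, Function.Injective (e x))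
    {K : ι → ℕ → Subfield ℂ} {d : ℕ} (hK : ∀ x k, FiniteDimensional ℚ (K x k)) (hD : ∀ x k, finrank ℚ (K x k) ≤ d)
    {T : ι → ℕ → Set (Matrix (Ix r₀ n m) (Ix r₀ n m) ℂ)} (hT : ∀ x k, IsSubtorsor (K x k) (T x k))
    (hcT : ∀ x k, Tot (C₀ x k) (fun i => Cs k * z k (e x i)) ∈ T x k)
    (hTN : ∀ x k i, TN (Pj (J k) (Lm (T x k)) i)) (hne : ∀ x k i, Pj (J k) (Lm (T x k)) i ≠ ⊥)
    (hfew : FewG (finrank (U ℂ) (spS (gm J)) + (n - 1)) Cs C₀)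
    (hbad : ∀ x, ¬ ∀ᶠ k in (hyperfilter ℕ : Filter ℕ), ∀ i, ∀ X ∈ spS (J k), ib (r₀ := r₀) i X ∈ Lm (T x k)) :
    ∃ p, ∀ x, ∃ j, e x j = p := by
  obtain ⟨V, _, _, _, Φ, hV, hΦ⟩ := hfew
  exact Pool.Agent.H936.V.core2 (gm_skew h.skew) (gm_unit h.det) hn (h.D (C₀ x₀)) (Φ ∘ₗ (Ds J Cs z).subtype) hV x₀
    (fun x => ld (C₀ x) ∘ₗ (Ds J Cs z).subtype) (fun x d hd => hΦ x d hd)
    (L := fun x => Lst fun k => LL (T x k))
    (fun x => h.nm (hC₀ x) (he x) (hK x) (hD x) (hT x) (hcT x) (hTN x) (hne x)) fun x hx => hbad x (back hx)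

end Pool.Agent.H936.V
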